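import Mathlib

/-! # Packing colourings: definitions -/

namespace R56Pack

variable {V : Type*}

/-- Every vertex has exactly three neighbours. -/
def Cubic (G : SimpleGraph V) : Prop := ∀ v, (G.neighborSet v).ncard = 3

/-- No induced subgraph is isomorphic to `K_{1,3}`: among any three neighbours of a vertex two are
adjacent. -/
def ClawFree (G : SimpleGraph V) : Prop :=
  ∀ v a b c, G.Adj v a → G.Adj v b → G.Adj v c → a ≠ b → a ≠ c → b ≠ c →
    G.Adj a b ∨ G.Adj a c ∨ G.Adj b c

/-- `G` is `(s 0, …, s (k-1))`-packing colourable: the vertex set can be partitioned into `k`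
(possibly empty) classes such that distinct vertices of class `i` are at distance more than
`s i`. -/
def PackingColorable (G : SimpleGraph V) {k : ℕ} (s : Fin k → ℕ) : Prop :=
  ∃ f : V → Fin k, ∀ u v, u ≠ v → f u = f v → ((s (f u) : ℕ) : ℕ∞) < G.edist u v

end R56Pack
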