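import Pool.Agent.R56.TwoMatchings
import Pool.Agent.R56.PackDefs

/-! # Structure of claw-free cubic graphs -/

namespace R56Pack

variable {V : Type*}

theorem Cubic.three {G : SimpleGraph V} (h : Cubic G) (v : V) :
    ∃ a b c, a ≠ b ∧ a ≠ c ∧ b ≠ c ∧ ∀ w, G.Adj v w ↔ w = a ∨ w = b ∨ w = c := by
  obtain ⟨a, b, c, hab, hac, hbc, hs⟩ := Set.ncard_eq_three.1 (h v)
  refine ⟨a, b, c, hab, hac, hbc, fun w => ?_⟩
  have : w ∈ G.neighborSet v ↔ w ∈ ({a, b, c} : Set V) := by rw [hs]
  simpa using this

theorem Cubic.third {G : SimpleGraph V} (h : Cubic G) {v a b : V} (ha : G.Adj v a)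
    (hb : G.Adj v b) (hab : a ≠ b) :
    ∃ c, c ≠ a ∧ c ≠ b ∧ c ≠ v ∧ ∀ w, G.Adj v w ↔ w = a ∨ w = b ∨ w = c := by
  obtain ⟨x, y, z, hxy, hxz, hyz, hN⟩ := h.three v
  have h1 := (hN a).1 ha
  have h2 := (hN b).1 hb
  have hx : G.Adj v x := (hN x).2 (by simp)
  have hy : G.Adj v y := (hN y).2 (by simp)
  have hz : G.Adj v z := (hN z).2 (by simp)
  rcases h1 with rfl | rfl | rfl <;> rcases h2 with rfl | rfl | rfl
  · exact absurd rfl hab
  · exact ⟨z, hxz.symm, hyz.symm, hz.ne', hN⟩
  · exact ⟨y, hxy.symm, hyz, hy.ne', fun w => by rw [hN]; tauto⟩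
  · exact ⟨z, hyz.symm, hxz.symm, hz.ne', fun w => by rw [hN]; tauto⟩
  · exact absurd rfl hab
  · exact ⟨x, hxy, hxz, hx.ne', fun w => by rw [hN]; tauto⟩
  · exact ⟨y, hyz, hxy.symm, hy.ne', fun w => by rw [hN]; tauto⟩
  · exact ⟨x, hxz, hxy, hx.ne', fun w => by rw [hN]; tauto⟩
  · exact absurd rfl hab

/-- The graph of the edges that lie in a triangle. -/
def tG (G : SimpleGraph V) : SimpleGraph V where
  Adj u v := G.Adj u v ∧ ∃ w, G.Adj u w ∧ G.Adj v w
  symm := ⟨fun _ _ h => ⟨h.1.symm, h.2.imp fun _ hw => ⟨hw.2, hw.1⟩⟩⟩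
  loopless := ⟨fun _ h => h.1.ne rfl⟩

/-- The unit of a vertex: the component of `tG`. -/
def un (G : SimpleGraph V) (v : V) : (tG G).ConnectedComponent := (tG G).connectedComponentMk v

theorem un_eq {G : SimpleGraph V} {v w : V} : un G v = un G w ↔ (tG G).Reachable v w := by
  unfold un; exact SimpleGraph.ConnectedComponent.eq

theorem un_eq_of_adj {G : SimpleGraph V} {v w x : V} (h : G.Adj v w) (h1 : G.Adj v x)
    (h2 : G.Adj w x) : un G v = un G w :=
  un_eq.2 (SimpleGraph.Adj.reachable (G := tG G) ⟨h, x, h1, h2⟩)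

theorem mem_of_un {G : SimpleGraph V} {S : Set V} (hS : ∀ x ∈ S, ∀ y, (tG G).Adj x y → y ∈ S)
    {v w : V} (hv : v ∈ S) (h : un G v = un G w) : w ∈ S := by
  have hr := (SimpleGraph.reachable_iff_reflTransGen _ _).1 (un_eq.1 h)
  induction hr with
  | refl => exact hv
  | tail _ hyz ih => exact hS _ (ih (un_eq.2 ((SimpleGraph.reachable_iff_reflTransGen _ _).2 ‹_›))) _ hyz

/-- A unit that is a triangle. -/
structure TriU (G : SimpleGraph V) (u : (tG G).ConnectedComponent) (x y z : V) : Prop where
  mem : ∀ w, un G w = u ↔ w = x ∨ w = y ∨ w = z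
  xy : G.Adj x y
  yz : G.Adj y z
  xz : G.Adj x z
  nx : ∃ o, un G o ≠ u ∧ ∀ w, G.Adj x w ↔ w = y ∨ w = z ∨ w = o
  ny : ∃ o, un G o ≠ u ∧ ∀ w, G.Adj y w ↔ w = x ∨ w = z ∨ w = o
  nz : ∃ o, un G o ≠ u ∧ ∀ w, G.Adj z w ↔ w = x ∨ w = y ∨ w = o

/-- A unit with four vertices, with the twins `b`, `c`. -/
structure QuadU (G : SimpleGraph V) (u : (tG G).ConnectedComponent) (a b c d : V) : Prop where
  mem : ∀ w, un G w = u ↔ w = a ∨ w = b ∨ w = c ∨ w = d
  ad : a ≠ d
  nb : ∀ w, G.Adj b w ↔ w = a ∨ w = c ∨ w = d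
  nc : ∀ w, G.Adj c w ↔ w = a ∨ w = b ∨ w = d
  na : ∃ o, ∀ w, G.Adj a w ↔ w = b ∨ w = c ∨ w = o
  nd : ∃ o, ∀ w, G.Adj d w ↔ w = b ∨ w = c ∨ w = o

theorem QuadU.swap {G : SimpleGraph V} {u} {a b c d : V} (h : QuadU G u a b c d) :
    QuadU G u d b c a :=
  ⟨fun w => by rw [h.mem]; tauto, h.ad.symm, fun w => by rw [h.nb]; tauto,
    fun w => by rw [h.nc]; tauto, h.nd, h.na⟩

/-- Construction of a quad unit from twins. -/
theorem quad_of_twins {G : SimpleGraph V} (hc : Cubic G) {a b c d : V} (had : a ≠ d)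
    (nb : ∀ w, G.Adj b w ↔ w = a ∨ w = c ∨ w = d) (nc : ∀ w, G.Adj c w ↔ w = a ∨ w = b ∨ w = d) :
    QuadU G (un G b) a b c d := by
  have hba : G.Adj b a := (nb a).2 (by simp)
  have hbc : G.Adj b c := (nb c).2 (by simp)
  have hbd : G.Adj b d := (nb d).2 (by simp)
  have hca : G.Adj c a := (nc a).2 (by simp)
  have hcd : G.Adj c d := (nc d).2 (by simp)
  obtain ⟨oa, _, _, _, na⟩ := hc.third hba.symm hca.symm hbc.ne
  obtain ⟨od, _, _, _, nd⟩ := hc.third hbd.symm hcd.symm hbc.ne
  refine ⟨fun w => ?_, had, nb, nc, ⟨oa, na⟩, ⟨od, nd⟩⟩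
  constructor
  · intro hw
    have : w ∈ ({a, b, c, d} : Set V) := by
      refine mem_of_un (G := G) (v := b) ?_ (by simp) hw.symm
      intro x hx y hxy
      obtain ⟨hxy, z, hxz, hyz⟩ := hxy
      simp only [Set.mem_insert_iff, Set.mem_singleton_iff] at hx ⊢
      rcases hx with rfl | rfl | rfl | rfl
      · rcases (na y).1 hxy with rfl | rfl | rfl
        · simp
        · simp
        · rcases (na z).1 hxz with rfl | rfl | rfl
          · have := (nb y).1 hyz.symm; tauto
          · have := (nc y).1 hyz.symm; tauto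
          · exact absurd rfl hyz.ne
      · have := (nb y).1 hxy; tauto
      · have := (nc y).1 hxy; tauto
      · rcases (nd y).1 hxy with rfl | rfl | rfl
        · simp
        · simp
        · rcases (nd z).1 hxz with rfl | rfl | rfl
          · have := (nb y).1 hyz.symm; tauto
          · have := (nc y).1 hyz.symm; tauto
          · exact absurd rfl hyz.ne
    simpa using this
  · rintro (rfl | rfl | rfl | rfl)
    · exact (un_eq_of_adj hba hbc hca.symm).symm
    · rfl
    · exact (un_eq_of_adj hbc hba hca).symm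
    · exact (un_eq_of_adj hbd hbc hcd.symm).symm

/-- Classification of the units. -/
theorem unit_cases {G : SimpleGraph V} (hc : Cubic G) (hcl : ClawFree G) (v : V) :
    (∃ x y z, TriU G (un G v) x y z) ∨ (∃ a b c d, QuadU G (un G v) a b c d) := by
  -- a neighbourhood with an adjacent pair
  have hN : ∃ a b c, a ≠ b ∧ a ≠ c ∧ b ≠ c ∧ (∀ w, G.Adj v w ↔ w = a ∨ w = b ∨ w = c) ∧
      G.Adj a b := by
    obtain ⟨a, b, c, hab, hac, hbc, hN⟩ := hc.three v
    rcases hcl v a b c ((hN a).2 (by simp)) ((hN b).2 (by simp)) ((hN c).2 (by simp)) hab hac hbc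
      with h | h | h
    · exact ⟨a, b, c, hab, hac, hbc, hN, h⟩
    · exact ⟨a, c, b, hac, hab, hbc.symm, fun w => by rw [hN]; tauto, h⟩
    · exact ⟨b, c, a, hbc, hab.symm, hac.symm, fun w => by rw [hN]; tauto, h⟩
  obtain ⟨a, b, c, hab, hac, hbc, hN, hadj⟩ := hN
  have hva : G.Adj v a := (hN a).2 (by simp)
  have hvb : G.Adj v b := (hN b).2 (by simp)
  have hvc : G.Adj v c := (hN c).2 (by simp)
  obtain ⟨a', a'v, a'b, a'a, na⟩ := hc.third hva.symm hadj hvb.ne
  obtain ⟨b', b'v, b'a, b'b, nb⟩ := hc.third hvb.symm hadj.symm hva.ne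
  have haa' : G.Adj a a' := (na a').2 (by simp)
  have hbb' : G.Adj b b' := (nb b').2 (by simp)
  by_cases h1 : c = a'
  · -- twins v, a
    subst h1
    right
    exact ⟨b, v, a, c, quad_of_twins hc hbc (fun w => by rw [hN]; tauto)
      (fun w => by rw [na]; tauto)⟩
  by_cases h2 : c = b'
  · subst h2
    right
    exact ⟨a, v, b, c, quad_of_twins hc hac (fun w => by rw [hN])
      (fun w => by rw [nb]; tauto)⟩
  by_cases h3 : a' = b'
  · subst h3
    right
    have hq := quad_of_twins hc (a := v) (b := a) (c := b) (d := a') (Ne.symm a'v)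
      (fun w => by rw [na]) (fun w => by rw [nb])
    have hu : un G v = un G a := (hq.mem v).2 (by simp)
    exact ⟨v, a, b, a', by rw [hu]; exact hq⟩
  · left
    have hmem : ∀ w, un G w = un G v ↔ w = v ∨ w = a ∨ w = b := by
      intro w
      constructor
      · intro hw
        have : w ∈ ({v, a, b} : Set V) := by
          refine mem_of_un (G := G) (v := v) ?_ (by simp) hw.symm
          intro x hx y hxy
          obtain ⟨hxy, z, hxz, hyz⟩ := hxy
          simp only [Set.mem_insert_iff, Set.mem_singleton_iff] at hx ⊢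
          rcases hx with rfl | rfl | rfl
          · rcases (hN y).1 hxy with rfl | rfl | rfl
            · simp
            · simp
            · rcases (hN z).1 hxz with rfl | rfl | rfl
              · rcases (na y).1 hyz.symm with h | h | h
                · exact absurd h hvc.ne'
                · exact absurd h.symm hbc
                · exact absurd h h1
              · rcases (nb y).1 hyz.symm with h | h | h
                · exact absurd h hvc.ne'
                · exact absurd h.symm hac
                · exact absurd h h2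
              · exact absurd rfl hyz.ne
          · rcases (na y).1 hxy with rfl | rfl | rfl
            · simp
            · simp
            · rcases (na z).1 hxz with rfl | rfl | rfl
              · rcases (hN y).1 hyz.symm with h | h | h
                · exact absurd h haa'.ne'
                · exact absurd h a'b
                · exact absurd h.symm h1
              · rcases (nb y).1 hyz.symm with h | h | h
                · exact absurd h a'v
                · exact absurd h haa'.ne'
                · exact absurd h h3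
              · exact absurd rfl hyz.ne
          · rcases (nb y).1 hxy with rfl | rfl | rfl
            · simp
            · simp
            · rcases (nb z).1 hxz with rfl | rfl | rfl
              · rcases (hN y).1 hyz.symm with h | h | h
                · exact absurd h b'a
                · exact absurd h hbb'.ne'
                · exact absurd h.symm h2
              · rcases (na y).1 hyz.symm with h | h | h
                · exact absurd h b'v
                · exact absurd h hbb'.ne'
                · exact absurd h.symm h3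
              · exact absurd rfl hyz.ne
        simpa using this
      · rintro (rfl | rfl | rfl)
        · rfl
        · exact (un_eq_of_adj hva hvb hadj).symm
        · exact (un_eq_of_adj hvb hva hadj.symm).symm
    refine ⟨v, a, b, hmem, hva, hadj, hvb, ⟨c, ?_, hN⟩, ⟨a', ?_, na⟩, ⟨b', ?_, nb⟩⟩
    · intro h
      rcases (hmem c).1 h with h | h | h
      · exact hvc.ne' h
      · exact hac h.symm
      · exact hbc h.symm
    · intro h
      rcases (hmem a').1 h with h | h | h
      · exact a'v h
      · exact haa'.ne' h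
      · exact a'b h
    · intro h
      rcases (hmem b').1 h with h | h | h
      · exact b'v h
      · exact b'a h
      · exact hbb'.ne' h

/-- Every vertex has two neighbours in its unit. -/
theorem two_inner {G : SimpleGraph V} (hc : Cubic G) (hcl : ClawFree G) (v : V) :
    ∃ p q o, un G p = un G v ∧ un G q = un G v ∧ ∀ w, G.Adj v w ↔ w = p ∨ w = q ∨ w = o := by
  rcases unit_cases hc hcl v with ⟨x, y, z, h⟩ | ⟨a, b, c, d, h⟩
  · have hx : un G x = un G v := (h.mem x).2 (by simp)
    have hy : un G y = un G v := (h.mem y).2 (by simp)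
    have hz : un G z = un G v := (h.mem z).2 (by simp)
    rcases (h.mem v).1 rfl with rfl | rfl | rfl
    · obtain ⟨o, _, ho⟩ := h.nx; exact ⟨y, z, o, hy, hz, ho⟩
    · obtain ⟨o, _, ho⟩ := h.ny; exact ⟨x, z, o, hx, hz, ho⟩
    · obtain ⟨o, _, ho⟩ := h.nz; exact ⟨x, y, o, hx, hy, ho⟩
  · have ha : un G a = un G v := (h.mem a).2 (by simp)
    have hb : un G b = un G v := (h.mem b).2 (by simp)
    have hc' : un G c = un G v := (h.mem c).2 (by simp)
    rcases (h.mem v).1 rfl with rfl | rfl | rfl | rfl
    · obtain ⟨o, ho⟩ := h.na; exact ⟨b, c, o, hb, hc', ho⟩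
    · exact ⟨a, c, d, ha, hc', h.nb⟩
    · exact ⟨a, b, d, ha, hb, h.nc⟩
    · obtain ⟨o, ho⟩ := h.nd; exact ⟨b, c, o, hb, hc', ho⟩

/-- An edge that leaves the unit. -/
def Out (G : SimpleGraph V) (v w : V) : Prop := G.Adj v w ∧ un G v ≠ un G w

theorem Out.symm {G : SimpleGraph V} {v w : V} (h : Out G v w) : Out G w v :=
  ⟨h.1.symm, h.2.symm⟩

theorem Out.unique {G : SimpleGraph V} (hc : Cubic G) (hcl : ClawFree G) {v w w' : V}
    (h : Out G v w) (h' : Out G v w') : w = w' := by
  obtain ⟨p, q, o, hp, hq, hN⟩ := two_inner hc hcl v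
  rcases (hN w).1 h.1 with h1 | h1 | h1
  · exact absurd hp.symm (h1 ▸ h.2)
  · exact absurd hq.symm (h1 ▸ h.2)
  · rcases (hN w').1 h'.1 with h2 | h2 | h2
    · exact absurd hp.symm (h2 ▸ h'.2)
    · exact absurd hq.symm (h2 ▸ h'.2)
    · rw [h1, h2]

/-- The twins of a quad unit have no outer neighbours. -/
theorem QuadU.no_out_b {G : SimpleGraph V} {u} {a b c d : V} (h : QuadU G u a b c d) {w : V} :
    ¬ Out G b w := by
  intro hw
  have hb : un G b = u := (h.mem b).2 (by simp)
  apply hw.2
  rw [hb, eq_comm, h.mem]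
  have := (h.nb w).1 hw.1
  tauto

theorem QuadU.no_out_c {G : SimpleGraph V} {u} {a b c d : V} (h : QuadU G u a b c d) {w : V} :
    ¬ Out G c w := by
  intro hw
  have hb : un G c = u := (h.mem c).2 (by simp)
  apply hw.2
  rw [hb, eq_comm, h.mem]
  have := (h.nc w).1 hw.1
  tauto

/-- If two adjacent vertices of a unit both have outer neighbours then the unit is a triangle. -/
theorem tri_of_two_out {G : SimpleGraph V} (hc : Cubic G) (hcl : ClawFree G) {v w v' w' : V}
    (hvw : G.Adj v w) (hu : un G v = un G w) (hv : Out G v v') (hw : Out G w w') :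
    ∃ x y z, TriU G (un G v) x y z := by
  rcases unit_cases hc hcl v with h | ⟨a, b, c, d, h⟩
  · exact h
  · exfalso
    have hbm : un G b = un G v := (h.mem b).2 (by simp)
    have hcm : un G c = un G v := (h.mem c).2 (by simp)
    have hdm : un G d = un G v := (h.mem d).2 (by simp)
    have ham : un G a = un G v := (h.mem a).2 (by simp)
    have key : ∀ {a b c d : V}, QuadU G (un G v) a b c d → v = a → w = d → False := by
      intro a b c d h hva hwd
      have hbm : un G b = un G v := (h.mem b).2 (by simp)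
      have hcm : un G c = un G v := (h.mem c).2 (by simp)
      obtain ⟨o, ho⟩ := h.na
      rw [← hva] at ho
      have hd : w = b ∨ w = c ∨ w = o := (ho w).1 hvw
      have hv' : v' = b ∨ v' = c ∨ v' = o := (ho v').1 hv.1
      have hdb : w ≠ b := by
        intro h'
        exact h.no_out_b (h' ▸ hw)
      have hdc : w ≠ c := by
        intro h'
        exact h.no_out_c (h' ▸ hw)
      have hwo : w = o := by tauto
      have hv'b : v' ≠ b := fun h' => hv.2 (by rw [h', hbm])
      have hv'c : v' ≠ c := fun h' => hv.2 (by rw [h', hcm])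
      have hv'o : v' = o := by tauto
      exact hv.2 (by rw [hv'o, ← hwo, hu])
    have hvc : v = a ∨ v = d := by
      rcases (h.mem v).1 rfl with h' | h' | h' | h'
      · exact Or.inl h'
      · exact absurd (h' ▸ hv) h.no_out_b
      · exact absurd (h' ▸ hv) h.no_out_c
      · exact Or.inr h'
    have hwc : w = a ∨ w = d := by
      rcases (h.mem w).1 hu.symm with h' | h' | h' | h'
      · exact Or.inl h'
      · exact absurd (h' ▸ hw) h.no_out_b
      · exact absurd (h' ▸ hw) h.no_out_c
      · exact Or.inr h'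
    rcases hvc with hva | hvd <;> rcases hwc with hwa | hwd
    · exact hvw.ne (hva.trans hwa.symm)
    · exact key h hva hwd
    · exact key h.swap hvd hwa
    · exact hvw.ne (hvd.trans hwd.symm)

theorem TriU.out {G : SimpleGraph V} {u} {x y z : V} (h : TriU G u x y z) {v : V}
    (hv : un G v = u) : ∃ w, Out G v w := by
  rcases (h.mem v).1 hv with rfl | rfl | rfl
  · obtain ⟨o, ho, hN⟩ := h.nx; exact ⟨o, (hN o).2 (by simp), by rw [hv]; exact ho.symm⟩
  · obtain ⟨o, ho, hN⟩ := h.ny; exact ⟨o, (hN o).2 (by simp), by rw [hv]; exact ho.symm⟩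
  · obtain ⟨o, ho, hN⟩ := h.nz; exact ⟨o, (hN o).2 (by simp), by rw [hv]; exact ho.symm⟩

end R56Pack
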