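import Pool.Agent.R56.ClawPack

/-! # Claw-free cubic graphs are (1,1,2,3)-packing colourable -/

namespace R56Pack

variable {V : Type*}

theorem lt_edist {G : SimpleGraph V} {u v : V} {k : ℕ} (h : ∀ p : G.Walk u v, k < p.length) :
    (k : ℕ∞) < G.edist u v := by
  by_contra hlt
  rw [not_lt] at hlt
  have hne : G.edist u v ≠ ⊤ := ne_top_of_le_ne_top (ENat.natCast_ne_top _) hlt
  obtain ⟨p, hp⟩ := SimpleGraph.exists_walk_of_edist_ne_top hne
  rw [← hp] at hlt
  have := h p
  have h2 : p.length ≤ k := by exact_mod_cast hlt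
  omega

theorem one_lt_length {G : SimpleGraph V} {u v : V} (p : G.Walk u v) (h0 : u ≠ v)
    (h1 : ¬ G.Adj u v) : 1 < p.length := by
  cases p with
  | nil => exact absurd rfl h0
  | cons e1 p =>
    cases p with
    | nil => exact absurd e1 h1
    | cons e2 p => simp only [SimpleGraph.Walk.length_cons]; omega

theorem two_lt_length {G : SimpleGraph V} {u v : V} (p : G.Walk u v) (h0 : u ≠ v)
    (h1 : ¬ G.Adj u v) (h2 : ∀ w, G.Adj u w → ¬ G.Adj w v) : 2 < p.length := by
  cases p with
  | nil => exact absurd rfl h0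
  | cons e1 p =>
    cases p with
    | nil => exact absurd e1 h1
    | cons e2 p =>
      cases p with
      | nil => exact absurd e2 (h2 _ e1)
      | cons e3 p => simp only [SimpleGraph.Walk.length_cons]; omega

theorem three_lt_length {G : SimpleGraph V} {u v : V} (p : G.Walk u v) (h0 : u ≠ v)
    (h1 : ¬ G.Adj u v) (h2 : ∀ w, G.Adj u w → ¬ G.Adj w v)
    (h3 : ∀ w w', G.Adj u w → G.Adj w w' → ¬ G.Adj w' v) : 3 < p.length := by
  cases p with
  | nil => exact absurd rfl h0
  | cons e1 p =>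
    cases p with
    | nil => exact absurd e1 h1
    | cons e2 p =>
      cases p with
      | nil => exact absurd e2 (h2 _ e1)
      | cons e3 p =>
        cases p with
        | nil => exact absurd e3 (h3 _ _ e1 e2)
        | cons e4 p => simp only [SimpleGraph.Walk.length_cons]; omega

theorem quad_empty {G : SimpleGraph V} {W : Finset V}
    (hW : ∀ v ∈ W, ∃ x ∈ W, ∃ y ∈ W, x ≠ y ∧ G.Adj v x ∧ G.Adj v y)
    {u : (tG G).ConnectedComponent} {a b c d : V} (h : QuadU G u a b c d) (hb : b ∉ W)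
    (hor : c ∉ W ∨ ∃ v₀ w₀, un G v₀ = u ∧ Out G v₀ w₀ ∧ w₀ ∉ W) : ∀ v ∈ W, un G v ≠ u := by
  -- first case
  have case1 : c ∉ W → ∀ v ∈ W, un G v ≠ u := by
    intro hc v hv hvu
    have key : ∀ {a : V}, (∃ o, ∀ w, G.Adj a w ↔ w = b ∨ w = c ∨ w = o) → a ∉ W := by
      rintro a ⟨o, ho⟩ ha
      obtain ⟨x, hx, y, hy, hxy, hax, hay⟩ := hW a ha
      have h1 : x = o := by
        rcases (ho x).1 hax with h1 | h1 | h1
        · exact absurd (h1 ▸ hx) hb
        · exact absurd (h1 ▸ hx) hc
        · exact h1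
      have h2 : y = o := by
        rcases (ho y).1 hay with h1 | h1 | h1
        · exact absurd (h1 ▸ hy) hb
        · exact absurd (h1 ▸ hy) hc
        · exact h1
      exact hxy (h1.trans h2.symm)
    rcases (h.mem v).1 hvu with h' | h' | h' | h'
    · exact key h.na (h' ▸ hv)
    · exact hb (h' ▸ hv)
    · exact hc (h' ▸ hv)
    · exact key h.nd (h' ▸ hv)
  rcases hor with hc | ⟨v₀, w₀, hv₀, ho, hw₀⟩
  · exact case1 hc
  · apply case1
    have key : ∀ {a d : V}, QuadU G u a b c d → v₀ = a → c ∉ W := by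
      intro a d h hva
      have hbm : un G b = u := (h.mem b).2 (by simp)
      have hcm : un G c = u := (h.mem c).2 (by simp)
      have haW : a ∉ W := by
        intro ha
        obtain ⟨o, ho'⟩ := h.na
        obtain ⟨x, hx, y, hy, hxy, hax, hay⟩ := hW a ha
        have hwo : w₀ = o := by
          rw [hva] at ho hv₀
          rcases (ho' w₀).1 ho.1 with h1 | h1 | h1
          · exact absurd (by rw [hv₀, h1, hbm]) ho.2
          · exact absurd (by rw [hv₀, h1, hcm]) ho.2
          · exact h1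
        have key2 : ∀ x ∈ W, G.Adj a x → x = c := by
          intro x hx hax
          rcases (ho' x).1 hax with h1 | h1 | h1
          · exact absurd (h1 ▸ hx) hb
          · exact h1
          · exact absurd hx (by rw [h1, ← hwo]; exact hw₀)
        exact hxy ((key2 x hx hax).trans (key2 y hy hay).symm)
      intro hcW
      obtain ⟨x, hx, y, hy, hxy, hcx, hcy⟩ := hW c hcW
      have key2 : ∀ x ∈ W, G.Adj c x → x = d := by
        intro x hx hax
        rcases (h.nc x).1 hax with h1 | h1 | h1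
        · exact absurd (h1 ▸ hx) haW
        · exact absurd (h1 ▸ hx) hb
        · exact h1
      exact hxy ((key2 x hx hcx).trans (key2 y hy hcy).symm)
    rcases (h.mem v₀).1 hv₀ with h' | h' | h' | h'
    · exact key h h'
    · exact absurd (h' ▸ ho) h.no_out_b
    · exact absurd (h' ▸ ho) h.no_out_c
    · exact key h.swap h'

/-- The three vertices of a triangle unit. -/
theorem TriU.other {G : SimpleGraph V} {u} {x y z : V} (h : TriU G u x y z) {v s : V}
    (hv : un G v = u) (hs : un G s = u) (hvs : s ≠ v) :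
    ∃ t o, t ≠ s ∧ t ≠ v ∧ un G t = u ∧ un G o ≠ u ∧ (∀ w, G.Adj v w ↔ w = s ∨ w = t ∨ w = o) ∧
      ∀ w, un G w = u → w = v ∨ w = s ∨ w = t := by
  have hx : un G x = u := (h.mem x).2 (by simp)
  have hy : un G y = u := (h.mem y).2 (by simp)
  have hz : un G z = u := (h.mem z).2 (by simp)
  have nxy := h.xy.ne
  have nyz := h.yz.ne
  have nxz := h.xz.ne
  rcases (h.mem v).1 hv with rfl | rfl | rfl <;> rcases (h.mem s).1 hs with rfl | rfl | rfl
  · exact absurd rfl hvs
  · obtain ⟨o, ho, hN⟩ := h.nx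
    exact ⟨z, o, nyz.symm, nxz.symm, hz, ho, hN, fun w hw => (h.mem w).1 hw⟩
  · obtain ⟨o, ho, hN⟩ := h.nx
    exact ⟨y, o, nyz, nxy.symm, hy, ho, fun w => by rw [hN]; tauto,
      fun w hw => by have := (h.mem w).1 hw; tauto⟩
  · obtain ⟨o, ho, hN⟩ := h.ny
    exact ⟨z, o, nxz.symm, nyz.symm, hz, ho, hN,
      fun w hw => by have := (h.mem w).1 hw; tauto⟩
  · exact absurd rfl hvs
  · obtain ⟨o, ho, hN⟩ := h.ny
    exact ⟨x, o, nxz, nxy, hx, ho, fun w => by rw [hN]; tauto,
      fun w hw => by have := (h.mem w).1 hw; tauto⟩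
  · obtain ⟨o, ho, hN⟩ := h.nz
    exact ⟨y, o, nxy.symm, nyz, hy, ho, hN, fun w hw => by have := (h.mem w).1 hw; tauto⟩
  · obtain ⟨o, ho, hN⟩ := h.nz
    exact ⟨x, o, nxy, nxz, hx, ho, fun w => by rw [hN]; tauto,
      fun w hw => by have := (h.mem w).1 hw; tauto⟩
  · exact absurd rfl hvs

/-- The rest of the graph is bipartite. -/
theorem Data.rest [Finite V] {G : SimpleGraph V} (hc : Cubic G) (hcl : ClawFree G) (D : Data G) :
    ∃ c : V → Bool, ∀ v w, v ∉ D.X3 → v ∉ D.X4 → w ∉ D.X3 → w ∉ D.X4 → G.Adj v w →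
      c v ≠ c w := by
  classical
  have : Fintype V := Fintype.ofFinite V
  set R : Finset V := Finset.univ.filter (fun v => v ∉ D.X3 ∧ v ∉ D.X4) with hR
  have hRm : ∀ v, v ∈ R ↔ v ∉ D.X3 ∧ v ∉ D.X4 := fun v => by simp [hR]
  obtain ⟨c, hcc⟩ := core_colour G R.card R le_rfl (by
    intro W hWR hW
    have hX3 : ∀ v ∈ D.X3, v ∉ W := fun v hv hvW => ((hRm v).1 (hWR hvW)).1 hv
    have hX4 : ∀ v ∈ D.X4, v ∉ W := fun v hv hvW => ((hRm v).1 (hWR hvW)).2 hv
    -- quad units in `I`
    have q1 : ∀ u, u ∈ D.I → ¬ IsTri G u → ∀ v ∈ W, un G v ≠ u := by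
      intro u hu ht
      have hq := D.quad u ht
      have hbu : un G (D.b u) = u := (hq.mem _).2 (by simp)
      have hcu : un G (D.c u) = u := (hq.mem _).2 (by simp)
      refine quad_empty hW hq ?_ ?_
      · apply hX4
        refine ⟨by rw [hbu]; exact hu, Or.inr ⟨by rw [hbu]; exact ht, by rw [hbu]⟩⟩
      · by_cases hz : ∃ z w, D.Sel z ∧ Out G z w ∧ un G w = u
        · right
          obtain ⟨z, w, hs, ho, hw⟩ := hz
          exact ⟨w, z, hw, ho.symm, hX3 z (Or.inl hs)⟩
        · left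
          apply hX3
          refine Or.inr (Or.inr ⟨by rw [hcu]; exact ht, by rw [hcu]; exact hu, by rw [hcu], ?_⟩)
          rw [hcu]
          exact hz
    have q2 : ∀ u, ¬ IsTri G u → ∀ v ∈ W, un G v ≠ u := by
      intro u ht
      by_cases hu : u ∈ D.I
      · exact q1 u hu ht
      · have hq := D.quad u ht
        have hbu : un G (D.b u) = u := (hq.mem _).2 (by simp)
        refine quad_empty hW hq ?_ (Or.inr ?_)
        · apply hX3
          exact Or.inr (Or.inl ⟨by rw [hbu]; exact ht, by rw [hbu]; exact hu, by rw [hbu]⟩)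
        · obtain ⟨q, hqI, hqt, v₀, w₀, h1, h2, h3⟩ := D.dom u hu ht
          exact ⟨v₀, w₀, h1, h3, fun hw => q1 q hqI hqt w₀ hw h2⟩
    have hex : ∀ v, ∃ t o, v ∈ W → (t ∈ W ∧ o ∈ W ∧ t ≠ v ∧ un G t = un G v ∧
        (∀ w ∈ W, un G w = un G v → w = v ∨ w = t) ∧ Out G v o ∧
        ∀ w ∈ W, G.Adj v w → w = t ∨ w = o) := by
      intro v
      by_cases hv : v ∈ W
      · have ht : IsTri G (un G v) := by
          by_contra ht
          exact q2 _ ht v hv rfl
        -- the removed vertex of the unit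
        obtain ⟨s, hs, hsW⟩ : ∃ s, un G s = un G v ∧ s ∉ W := by
          by_cases hu : un G v ∈ D.I
          · have := D.hf _ hu ht
            refine ⟨D.f (un G v), this, hX4 _ ⟨by rw [this]; exact hu, Or.inl ⟨by rw [this]; exact ht, by rw [this]⟩⟩⟩
          · have := (D.hg _ hu ht).1
            refine ⟨D.g (un G v), this, hX3 _ (Or.inl ⟨by rw [this]; exact hu, by rw [this]; exact ht, by rw [this]⟩)⟩
        obtain ⟨x, y, z, hT⟩ := ht
        obtain ⟨t, o, _, htv, htu, hou, hN, hall⟩ := hT.other rfl hs (fun h => hsW (h ▸ hv))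
        have hsub : ∀ w ∈ W, G.Adj v w → w = t ∨ w = o := by
          intro w hw hvw
          rcases (hN w).1 hvw with h1 | h1 | h1
          · exact absurd (h1 ▸ hw) hsW
          · exact Or.inl h1
          · exact Or.inr h1
        obtain ⟨p, hp, q, hq, hpq, hvp, hvq⟩ := hW v hv
        have hto : t ∈ W ∧ o ∈ W := by
          rcases hsub p hp hvp with h1 | h1 <;> rcases hsub q hq hvq with h2 | h2
          · exact absurd (h1.trans h2.symm) hpq
          · exact ⟨h1 ▸ hp, h2 ▸ hq⟩
          · exact ⟨h2 ▸ hq, h1 ▸ hp⟩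
          · exact absurd (h1.trans h2.symm) hpq
        refine ⟨t, o, fun _ => ⟨hto.1, hto.2, htv, htu, ?_, ⟨(hN o).2 (by simp), Ne.symm hou⟩,
          hsub⟩⟩
        intro w hw hwu
        rcases hall w hwu with h1 | h1 | h1
        · exact Or.inl h1
        · exact absurd (h1 ▸ hw) hsW
        · exact Or.inr h1
      · exact ⟨v, v, fun h => absurd h hv⟩
    choose F O hFO using hex
    obtain ⟨c, hc'⟩ := two_matchings W.card W le_rfl F O
      (by
        intro v hv
        obtain ⟨h1, h2, h3, h4, h5, h6, h7⟩ := hFO v hv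
        obtain ⟨g1, g2, g3, g4, g5, g6, g7⟩ := hFO (F v) h1
        refine ⟨h1, ?_, h3⟩
        rcases h5 (F (F v)) g1 (g4.trans h4) with h | h
        · exact h
        · exact absurd h g3)
      (by
        intro v hv
        obtain ⟨h1, h2, h3, h4, h5, h6, h7⟩ := hFO v hv
        obtain ⟨g1, g2, g3, g4, g5, g6, g7⟩ := hFO (O v) h2
        exact ⟨h2, Out.unique hc hcl g6 h6.symm, h6.1.ne'⟩)
    refine ⟨c, fun v hv w hw hvw => ?_⟩
    obtain ⟨h1, h2, h3, h4, h5, h6, h7⟩ := hFO v hv
    rcases h7 w hw hvw with rfl | rfl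
    · exact (hc' v hv).1.symm
    · exact (hc' v hv).2.symm)
  refine ⟨c, fun v w h1 h2 h3 h4 hvw => hcc v ((hRm v).2 ⟨h1, h2⟩) w ((hRm w).2 ⟨h3, h4⟩) hvw⟩

/-- Every claw-free cubic graph is `(1,1,2,3)`-packing colourable. -/
theorem claw_free_cubic_packing [Finite V] {G : SimpleGraph V} (hc : Cubic G) (hcl : ClawFree G) :
    PackingColorable G ![1, 1, 2, 3] := by
  classical
  obtain ⟨D⟩ := exists_data hc hcl
  obtain ⟨c, hcc⟩ := D.rest hc hcl
  refine ⟨fun v => if v ∈ D.X4 then 3 else if v ∈ D.X3 then 2 else if c v = true then 1 else 0,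
    ?_⟩
  intro u v huv hf
  by_cases hu4 : u ∈ D.X4
  · have hv4 : v ∈ D.X4 := by
      by_contra hv4
      simp only [hu4, hv4, if_true, if_false] at hf
      split_ifs at hf <;> simp at hf
    simp only [hu4, if_true]
    obtain ⟨k1, k2, k3⟩ := D.X4_far hc hcl hu4 hv4 huv
    exact lt_edist (k := 3) fun p => three_lt_length p huv k1 k2 k3
  · have hv4 : v ∉ D.X4 := by
      intro hv4
      simp only [hu4, hv4, if_true, if_false] at hf
      split_ifs at hf <;> simp at hf
    by_cases hu3 : u ∈ D.X3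
    · have hv3 : v ∈ D.X3 := by
        by_contra hv3
        simp only [hu4, hv4, hu3, hv3, if_true, if_false] at hf
        split_ifs at hf <;> simp at hf
      simp only [hu4, hu3, if_true, if_false]
      obtain ⟨k1, k2⟩ := D.X3_far hc hcl hu3 hv3 huv
      exact lt_edist (k := 2) fun p => two_lt_length p huv k1 k2
    · have hv3 : v ∉ D.X3 := by
        intro hv3
        simp only [hu4, hv4, hu3, hv3, if_true, if_false] at hf
        split_ifs at hf <;> simp at hf
      simp only [hu4, hv4, hu3, hv3, if_false] at hf ⊢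
      have hnadj : ¬ G.Adj u v := by
        intro hadj
        have hne := hcc u v hu3 hu4 hv3 hv4 hadj
        cases h1 : c u <;> cases h2 : c v <;> simp [h1, h2] at hf hne
      have hone : (![1, 1, 2, 3] : Fin 4 → ℕ) (if c u = true then 1 else 0) = 1 := by
        split_ifs <;> rfl
      rw [hone]
      exact lt_edist (k := 1) fun p => one_lt_length p huv hnadj

end R56Pack
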