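import Pool.Agent.R56.ClawFree

/-! # Packing colourings of claw-free cubic graphs -/

namespace R56Pack

variable {V : Type*}

/-- The unit `u` is a triangle. -/
def IsTri (G : SimpleGraph V) (u : (tG G).ConnectedComponent) : Prop :=
  ∃ x y z, TriU G u x y z

theorem un_surj (G : SimpleGraph V) (u : (tG G).ConnectedComponent) : ∃ v, un G v = u := by
  obtain ⟨v, hv⟩ := Quot.exists_rep u
  exact ⟨v, hv⟩

open Classical in
/-- Choice of the darts of the triangle units in `I`. -/
theorem exists_darts [Finite V] {G : SimpleGraph V} (hc : Cubic G) (hcl : ClawFree G)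
    (I : Set (tG G).ConnectedComponent) :
    ∃ f : (tG G).ConnectedComponent → V, (∀ u ∈ I, IsTri G u → un G (f u) = u) ∧
      ∀ u ∈ I, IsTri G u → ∀ u' ∈ I, IsTri G u' → ∀ m m', Out G (f u) m → Out G (f u') m' →
        un G m = un G m' → IsTri G (un G m) → u = u' := by
  have : Fintype V := Fintype.ofFinite V
  have ho : ∀ v : V, ∃ w, (∃ w', Out G v w') → Out G v w := by
    intro v
    by_cases h : ∃ w', Out G v w'
    · obtain ⟨w', hw'⟩ := h; exact ⟨w', fun _ => hw'⟩
    · exact ⟨v, fun h' => absurd h' h⟩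
  choose o ho using ho
  choose rep hrep using un_surj G
  set tok : V → V := fun m => if IsTri G (un G m) then rep (un G m) else m with htok
  have htok1 : ∀ m, IsTri G (un G m) → tok m = rep (un G m) := fun m h => by simp [htok, h]
  have htok2 : ∀ m, ¬ IsTri G (un G m) → tok m = m := fun m h => by simp [htok, h]
  set ι := {u : (tG G).ConnectedComponent // IsTri G u ∧ u ∈ I} with hι
  set cls : (tG G).ConnectedComponent → Finset V := fun u =>
    Finset.univ.filter (fun v => un G v = u) with hcls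
  have hcls3 : ∀ u, IsTri G u → (cls u).card = 3 := by
    rintro u ⟨x, y, z, h⟩
    rw [Finset.card_eq_three]
    refine ⟨x, y, z, h.xy.ne, h.xz.ne, h.yz.ne, ?_⟩
    ext w
    simp [hcls, h.mem]
  set t : ι → Finset V := fun u => (cls u.1).image (fun v => tok (o v)) with ht
  have hhall : ∀ s : Finset ι, s.card ≤ (s.biUnion t).card := by
    intro s
    set E := s.biUnion (fun u => cls u.1) with hE
    have hEc : E.card = s.card * 3 := by
      rw [hE, Finset.card_biUnion]
      · rw [Finset.sum_congr rfl (fun u _ => hcls3 u.1 u.2.1), Finset.sum_const, smul_eq_mul]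
      · intro u _ u' _ hne
        change Disjoint (cls u.1) (cls u'.1)
        rw [Finset.disjoint_left]
        intro v hv hv'
        simp only [hcls, Finset.mem_filter, Finset.mem_univ, true_and] at hv hv'
        exact hne (Subtype.ext (hv.symm.trans hv'))
    have hEt : ∀ v ∈ E, IsTri G (un G v) := by
      intro v hv
      simp only [hE, Finset.mem_biUnion, hcls, Finset.mem_filter, Finset.mem_univ, true_and] at hv
      obtain ⟨u, _, hu⟩ := hv
      rw [hu]; exact u.2.1
    have hEo : ∀ v ∈ E, Out G v (o v) := by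
      intro v hv
      obtain ⟨x, y, z, h⟩ := hEt v hv
      exact ho v (h.out rfl)
    have hinj : Set.InjOn o (E : Set V) := by
      intro v hv v' hv' heq
      have h1 := (hEo v hv).symm
      have h2 := (hEo v' hv').symm
      rw [← heq] at h2
      exact Out.unique hc hcl h1 h2
    have hfib : ∀ a ∈ E.image (fun v => tok (o v)),
        (E.filter (fun v => tok (o v) = a)).card ≤ 3 := by
      intro a _
      set T : Finset V := if IsTri G (un G a) then cls (un G a) else {a} with hT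
      have hTc : T.card ≤ 3 := by
        rw [hT]
        split_ifs with h
        · rw [hcls3 _ h]
        · simp
      refine le_trans (Finset.card_le_card_of_injOn o ?_ ?_) hTc
      · intro v hv
        simp only [Finset.coe_filter, Set.mem_ofPred_eq] at hv
        obtain ⟨_, hva⟩ := hv
        simp only [Finset.mem_coe]
        by_cases h : IsTri G (un G (o v))
        · rw [htok1 _ h] at hva
          have hua : un G a = un G (o v) := by rw [← hva, hrep]
          rw [hT, if_pos (by rw [hua]; exact h)]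
          simp [hcls, hua]
        · rw [htok2 _ h] at hva
          rw [hT, if_neg (by rw [← hva]; exact h)]
          simp [hva]
      · intro v hv v' hv' heq
        simp only [Finset.coe_filter, Set.mem_ofPred_eq] at hv hv'
        exact hinj hv.1 hv'.1 heq
    have h1 := Finset.card_le_mul_card_image E 3 hfib
    have h2 : (E.image (fun v => tok (o v))).card ≤ (s.biUnion t).card := by
      apply Finset.card_le_card
      intro a ha
      rw [Finset.mem_image] at ha
      obtain ⟨v, hv, rfl⟩ := ha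
      rw [hE, Finset.mem_biUnion] at hv
      obtain ⟨u, hu, hvu⟩ := hv
      exact Finset.mem_biUnion.2 ⟨u, hu, Finset.mem_image_of_mem _ hvu⟩
    omega
  obtain ⟨τ, hτinj, hτ⟩ := (Finset.all_card_le_biUnion_card_iff_exists_injective t).1 hhall
  have hf : ∀ u : (tG G).ConnectedComponent, ∃ v, ∀ hu : IsTri G u ∧ u ∈ I,
      un G v = u ∧ tok (o v) = τ ⟨u, hu⟩ := by
    intro u
    by_cases hu : IsTri G u ∧ u ∈ I
    · have := hτ ⟨u, hu⟩
      rw [ht, Finset.mem_image] at this
      obtain ⟨v, hv, hvt⟩ := this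
      refine ⟨v, fun _ => ⟨?_, hvt⟩⟩
      simpa [hcls] using hv
    · obtain ⟨v, _⟩ := un_surj G u
      exact ⟨v, fun h => absurd h hu⟩
  choose f hf using hf
  refine ⟨f, fun u hu hut => (hf u ⟨hut, hu⟩).1, ?_⟩
  intro u hu hut u' hu' hut' m m' hm hm' hmm hmt
  have h1 := (hf u ⟨hut, hu⟩).2
  have h2 := (hf u' ⟨hut', hu'⟩).2
  have e1 : o (f u) = m := Out.unique hc hcl (ho _ ⟨m, hm⟩) hm
  have e2 : o (f u') = m' := Out.unique hc hcl (ho _ ⟨m', hm'⟩) hm'
  rw [e1, htok1 m hmt] at h1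
  rw [e2, htok1 m' (by rw [← hmm]; exact hmt), ← hmm] at h2
  have := hτinj (h1.symm.trans h2)
  exact congrArg Subtype.val this

/-- Two units joined by an edge. -/
def QAdj (G : SimpleGraph V) (p q : (tG G).ConnectedComponent) : Prop :=
  ∃ v w, un G v = p ∧ un G w = q ∧ Out G v w

theorem QAdj.symm {G : SimpleGraph V} {p q : (tG G).ConnectedComponent} (h : QAdj G p q) :
    QAdj G q p := by
  obtain ⟨v, w, hv, hw, ho⟩ := h
  exact ⟨w, v, hw, hv, ho.symm⟩

theorem QAdj.irrefl {G : SimpleGraph V} {p : (tG G).ConnectedComponent} : ¬ QAdj G p p := by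
  rintro ⟨v, w, hv, hw, ho⟩
  exact ho.2 (hv.trans hw.symm)

/-- Choice of the independent set of units. -/
theorem exists_units [Finite V] (G : SimpleGraph V) :
    ∃ I : Set (tG G).ConnectedComponent, (∀ p ∈ I, ∀ q ∈ I, ¬ QAdj G p q) ∧
      (∀ p, p ∉ I → ∃ q ∈ I, QAdj G p q) ∧
      (∀ p, p ∉ I → ¬ IsTri G p → ∃ q ∈ I, ¬ IsTri G q ∧ QAdj G p q) := by
  have : Finite (tG G).ConnectedComponent := Quot.finite _
  obtain ⟨A, _, hA2, hA3, hA4⟩ := exists_maximal_indep (QAdj G) (fun _ _ h => h.symm)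
    (fun _ => QAdj.irrefl) {p | ¬ IsTri G p} ∅ (by simp)
  obtain ⟨I, hI1, _, hI3, hI4⟩ := exists_maximal_indep (QAdj G) (fun _ _ h => h.symm)
    (fun _ => QAdj.irrefl) Set.univ A hA3
  refine ⟨I, hI3, fun p hp => hI4 p (Set.mem_univ _) hp, fun p hp hpt => ?_⟩
  obtain ⟨q, hq, hpq⟩ := hA4 p hpt (fun h => hp (hI1 h))
  refine ⟨q, hI1 hq, ?_, hpq⟩
  have := hA2 hq
  simpa using this

/-- The data of the construction. -/
structure Data (G : SimpleGraph V) where
  I : Set (tG G).ConnectedComponent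
  f : (tG G).ConnectedComponent → V
  g : (tG G).ConnectedComponent → V
  a : (tG G).ConnectedComponent → V
  b : (tG G).ConnectedComponent → V
  c : (tG G).ConnectedComponent → V
  d : (tG G).ConnectedComponent → V
  indep : ∀ p ∈ I, ∀ q ∈ I, ¬ QAdj G p q
  dom : ∀ p, p ∉ I → ¬ IsTri G p → ∃ q ∈ I, ¬ IsTri G q ∧ QAdj G p q
  hf : ∀ u ∈ I, IsTri G u → un G (f u) = u
  hf' : ∀ u ∈ I, IsTri G u → ∀ u' ∈ I, IsTri G u' → ∀ m m', Out G (f u) m → Out G (f u') m' →
        un G m = un G m' → IsTri G (un G m) → u = u'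
  hg : ∀ u, u ∉ I → IsTri G u → un G (g u) = u ∧ ∃ w, Out G (g u) w ∧ un G w ∈ I
  quad : ∀ u, ¬ IsTri G u → QuadU G u (a u) (b u) (c u) (d u)

theorem exists_data [Finite V] {G : SimpleGraph V} (hc : Cubic G) (hcl : ClawFree G) :
    Nonempty (Data G) := by
  classical
  obtain ⟨I, h1, h2, h3⟩ := exists_units G
  obtain ⟨f, hf, hf'⟩ := exists_darts hc hcl I
  have hg : ∀ u : (tG G).ConnectedComponent, ∃ v, u ∉ I → IsTri G u →
      un G v = u ∧ ∃ w, Out G v w ∧ un G w ∈ I := by
    intro u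
    by_cases hu : u ∉ I
    · obtain ⟨q, hq, v, w, hv, hw, ho⟩ := h2 u hu
      exact ⟨v, fun _ _ => ⟨hv, w, ho, by rw [hw]; exact hq⟩⟩
    · obtain ⟨v, _⟩ := un_surj G u
      exact ⟨v, fun h => absurd h hu⟩
  choose g hg using hg
  have hq : ∀ u : (tG G).ConnectedComponent, ∃ x : V × V × V × V, ¬ IsTri G u →
      QuadU G u x.1 x.2.1 x.2.2.1 x.2.2.2 := by
    intro u
    obtain ⟨v, rfl⟩ := un_surj G u
    rcases unit_cases hc hcl v with h | ⟨a, b, c, d, h⟩
    · exact ⟨(v, v, v, v), fun h' => absurd h h'⟩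
    · exact ⟨(a, b, c, d), fun _ => h⟩
  choose x hx using hq
  exact ⟨⟨I, f, g, fun u => (x u).1, fun u => (x u).2.1, fun u => (x u).2.2.1,
    fun u => (x u).2.2.2, h1, h3, hf, hf', hg, hx⟩⟩

namespace Data

variable {G : SimpleGraph V} (D : Data G)

/-- The 3-packing. -/
def X4 : Set V := {v | un G v ∈ D.I ∧ ((IsTri G (un G v) ∧ v = D.f (un G v)) ∨
  (¬ IsTri G (un G v) ∧ v = D.b (un G v)))}

/-- `v` is the selected vertex of a triangle unit outside `I`. -/
def Sel (v : V) : Prop := un G v ∉ D.I ∧ IsTri G (un G v) ∧ v = D.g (un G v)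

/-- The 2-packing. -/
def X3 : Set V := {v | D.Sel v ∨ (¬ IsTri G (un G v) ∧ un G v ∉ D.I ∧ v = D.b (un G v)) ∨
  (¬ IsTri G (un G v) ∧ un G v ∈ D.I ∧ v = D.c (un G v) ∧
    ¬ ∃ z w, D.Sel z ∧ Out G z w ∧ un G w = un G v)}

theorem X4_unit {x x' : V} (hx : x ∈ D.X4) (hx' : x' ∈ D.X4) (h : un G x = un G x') :
    x = x' := by
  obtain ⟨h1, h2⟩ := hx
  obtain ⟨h1', h2'⟩ := hx'
  rw [← h] at h2'
  rcases h2 with ⟨t, e⟩ | ⟨t, e⟩ <;> rcases h2' with ⟨t', e'⟩ | ⟨t', e'⟩
  · rw [e, e']
  · exact absurd t t'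
  · exact absurd t' t
  · rw [e, e']

theorem X3_unit {x x' : V} (hx : x ∈ D.X3) (hx' : x' ∈ D.X3) (h : un G x = un G x') :
    x = x' := by
  unfold X3 at hx hx'
  simp only [Set.mem_ofPred_eq, Sel] at hx hx'
  rw [← h] at hx'
  rcases hx with ⟨i, t, e⟩ | ⟨t, i, e⟩ | ⟨t, i, e, _⟩ <;>
    rcases hx' with ⟨i', t', e'⟩ | ⟨t', i', e'⟩ | ⟨t', i', e', _⟩
  · rw [e, e']
  · exact absurd t t'
  · exact absurd t t'
  · exact absurd t' t
  · rw [e, e']
  · exact absurd i' i
  · exact absurd t' t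
  · exact absurd i i'
  · rw [e, e']

/-- A vertex of `X4` with an outer neighbour is the selected vertex of a triangle. -/
theorem X4_out {x w : V} (hx : x ∈ D.X4) (h : Out G x w) :
    IsTri G (un G x) ∧ x = D.f (un G x) := by
  obtain ⟨_, h2⟩ := hx
  rcases h2 with h2 | ⟨t, e⟩
  · exact h2
  · have hq := D.quad _ t
    rw [e] at h
    exact absurd h (by
      intro h'
      have := hq.no_out_b (w := w)
      exact this h')

theorem X3_out {x w : V} (hx : x ∈ D.X3) (h : Out G x w) : D.Sel x := by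
  rcases hx with h2 | ⟨t, _, e⟩ | ⟨t, _, e, _⟩
  · exact h2
  · have hq := D.quad _ t
    rw [e] at h
    exact absurd h hq.no_out_b
  · have hq := D.quad _ t
    rw [e] at h
    exact absurd h hq.no_out_c

theorem Sel.mem {x w : V} (hc : Cubic G) (hcl : ClawFree G) (hx : D.Sel x) (h : Out G x w) :
    un G w ∈ D.I := by
  obtain ⟨i, t, e⟩ := hx
  obtain ⟨_, w', hw', hI⟩ := D.hg _ i t
  rw [← e] at hw'
  rw [Out.unique hc hcl h hw']
  exact hI

/-- Steps of length at most two between different units. -/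
theorem step2 (hc : Cubic G) (hcl : ClawFree G) {x w y : V} (h1 : G.Adj x w) (h2 : G.Adj w y)
    (hne : un G x ≠ un G y) : (un G w = un G x ∧ Out G w y) ∨ (un G w = un G y ∧ Out G x w) := by
  by_cases hx : un G w = un G x
  · exact Or.inl ⟨hx, h2, by rw [hx]; exact hne⟩
  · by_cases hy : un G w = un G y
    · exact Or.inr ⟨hy, h1, fun h => hx h.symm⟩
    · exfalso
      have o1 : Out G w x := ⟨h1.symm, hx⟩
      have o2 : Out G w y := ⟨h2, hy⟩
      exact hne (by rw [Out.unique hc hcl o1 o2])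

theorem X4_far (hc : Cubic G) (hcl : ClawFree G) {x y : V} (hx : x ∈ D.X4) (hy : y ∈ D.X4)
    (hne : x ≠ y) : ¬ G.Adj x y ∧ (∀ w, G.Adj x w → ¬ G.Adj w y) ∧
      ∀ w w', G.Adj x w → G.Adj w w' → ¬ G.Adj w' y := by
  have hu : un G x ≠ un G y := fun h => hne (D.X4_unit hx hy h)
  have hq : ¬ QAdj G (un G x) (un G y) := D.indep _ hx.1 _ hy.1
  have two : ∀ {x y : V}, un G x ≠ un G y → ¬ QAdj G (un G x) (un G y) →
      ∀ w, G.Adj x w → ¬ G.Adj w y := by
    intro x y hu hq w h1 h2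
    rcases step2 hc hcl h1 h2 hu with ⟨e, o⟩ | ⟨e, o⟩
    · exact hq ⟨w, y, e, rfl, o⟩
    · exact hq ⟨x, w, rfl, e, o⟩
  refine ⟨fun h => hq ⟨x, y, rfl, rfl, h, hu⟩, two hu hq, ?_⟩
  intro w w' h1 h2 h3
  by_cases e1 : un G w = un G x
  · exact two (x := w) (y := y) (by rw [e1]; exact hu) (by rw [e1]; exact hq) w' h2 h3
  by_cases e2 : un G w' = un G y
  · exact two (x := x) (y := w') (by rw [e2]; exact hu) (by rw [e2]; exact hq) w h1 h2
  have ox : Out G x w := ⟨h1, fun h => e1 h.symm⟩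
  have oy : Out G y w' := ⟨h3.symm, fun h => e2 h.symm⟩
  by_cases e3 : un G w = un G w'
  · have htri := tri_of_two_out hc hcl h2 e3 ox.symm oy.symm
    obtain ⟨t1, f1⟩ := D.X4_out hx ox
    obtain ⟨t2, f2⟩ := D.X4_out hy oy
    apply hu
    refine D.hf' _ hx.1 t1 _ hy.1 t2 w w' (by rw [← f1]; exact ox) (by rw [← f2]; exact oy) e3
      htri
  · have ow : Out G w w' := ⟨h2, e3⟩
    have : w' = x := Out.unique hc hcl ow ox.symm
    rw [this] at oy
    exact hq ⟨x, y, rfl, rfl, oy.symm⟩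

theorem X3_far (hc : Cubic G) (hcl : ClawFree G) {x y : V} (hx : x ∈ D.X3) (hy : y ∈ D.X3)
    (hne : x ≠ y) : ¬ G.Adj x y ∧ ∀ w, G.Adj x w → ¬ G.Adj w y := by
  have hu : un G x ≠ un G y := fun h => hne (D.X3_unit hx hy h)
  have key : ∀ {x y : V}, x ∈ D.X3 → y ∈ D.X3 → un G x ≠ un G y → ∀ w, un G w = un G x →
      Out G w y → G.Adj x w → False := by
    intro x y hx hy hu w e o _
    have hs := D.X3_out hy o.symm
    have hI := Sel.mem D hc hcl hs o.symm
    rw [e] at hI
    rcases hx with ⟨i, _⟩ | ⟨_, i, _⟩ | ⟨_, _, _, hno⟩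
    · exact i hI
    · exact i hI
    · exact hno ⟨y, w, hs, o.symm, e⟩
  constructor
  · intro h
    have o : Out G x y := ⟨h, hu⟩
    have hs := D.X3_out hx o
    have hs' := D.X3_out hy o.symm
    exact hs'.1 (Sel.mem D hc hcl hs o)
  · intro w h1 h2
    rcases step2 hc hcl h1 h2 hu with ⟨e, o⟩ | ⟨e, o⟩
    · exact key hx hy hu w e o h1
    · exact key hy hx hu.symm w e o.symm h2.symm

end Data

end R56Pack
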