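import Mathlib

set_option autoImplicit false

/-!
Counting tools: the proportion of the elements of a finite type with a given property.
-/

namespace Pool.Agent.R56.Dens

open Finset

open Classical in
/-- the proportion of the elements of `X` with property `P` -/
noncomputable def dens {X : Type*} [Fintype X] (P : X → Prop) : ℝ :=
  ((univ.filter P).card : ℝ) / (Fintype.card X : ℝ)

variable {X : Type*} [Fintype X]

lemma dens_eq (P : X → Prop) [DecidablePred P] :
    dens P = ((univ.filter P).card : ℝ) / (Fintype.card X : ℝ) := by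
  unfold dens
  congr!

lemma dens_nonneg (P : X → Prop) : 0 ≤ dens P := by
  unfold dens; positivity

lemma dens_mono {P Q : X → Prop} (h : ∀ x, P x → Q x) : dens P ≤ dens Q := by
  classical
  unfold dens
  apply div_le_div_of_nonneg_right _ (Nat.cast_nonneg _)
  exact_mod_cast card_le_card (fun x hx => by
    simp only [mem_filter, mem_univ, true_and] at hx ⊢; exact h x hx)

lemma dens_congr {P Q : X → Prop} (h : ∀ x, P x ↔ Q x) : dens P = dens Q := by
  have : P = Q := funext fun x => propext (h x)
  rw [this]

lemma dens_true [Nonempty X] : dens (fun _ : X => True) = 1 := by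
  classical
  unfold dens
  simp

lemma dens_le_one (P : X → Prop) : dens P ≤ 1 := by
  classical
  unfold dens
  apply div_le_one_of_le₀ _ (Nat.cast_nonneg _)
  exact_mod_cast card_le_univ _

lemma dens_or (P Q : X → Prop) : dens (fun x => P x ∨ Q x) ≤ dens P + dens Q := by
  classical
  rw [dens_eq, dens_eq P, dens_eq Q, ← add_div]
  apply div_le_div_of_nonneg_right _ (Nat.cast_nonneg _)
  rw [filter_or]
  exact_mod_cast card_union_le _ _

lemma dens_not [Nonempty X] (P : X → Prop) : dens (fun x => ¬ P x) = 1 - dens P := by
  classical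
  rw [dens_eq, dens_eq P]
  have h : (0 : ℝ) < (Fintype.card X : ℝ) := by exact_mod_cast Fintype.card_pos
  have h2 : ((univ.filter P).card : ℝ) + ((univ.filter fun x => ¬ P x).card : ℝ)
      = Fintype.card X := by
    exact_mod_cast card_filter_add_card_filter_not (s := (univ : Finset X)) P
  field_simp
  linarith

lemma dens_exists_mem {ι : Type*} (s : Finset ι) (P : ι → X → Prop) :
    dens (fun x => ∃ i ∈ s, P i x) ≤ ∑ i ∈ s, dens (P i) := by
  classical
  induction s using Finset.induction_on with
  | empty => simp [dens]
  | insert a s ha ih =>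
    rw [sum_insert ha]
    calc dens (fun x => ∃ i ∈ insert a s, P i x) ≤ dens (fun x => P a x ∨ ∃ i ∈ s, P i x) := by
          apply dens_mono
          rintro x ⟨i, hi, hx⟩
          rw [mem_insert] at hi
          rcases hi with rfl | hi
          · exact Or.inl hx
          · exact Or.inr ⟨i, hi, hx⟩
      _ ≤ dens (P a) + dens (fun x => ∃ i ∈ s, P i x) := dens_or _ _
      _ ≤ _ := by linarith

lemma dens_exists {ι : Type*} [Fintype ι] (P : ι → X → Prop) :
    dens (fun x => ∃ i, P i x) ≤ ∑ i, dens (P i) := by
  have h := dens_exists_mem (univ : Finset ι) P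
  simpa using h

lemma dens_exists_le {ι : Type*} (s : Finset ι) (P : ι → X → Prop) (p : ℝ)
    (h : ∀ i ∈ s, dens (P i) ≤ p) : dens (fun x => ∃ i ∈ s, P i x) ≤ s.card * p := by
  refine (dens_exists_mem s P).trans ?_
  refine (sum_le_card_nsmul s _ p h).trans ?_
  rw [nsmul_eq_mul]

lemma exists_of_dens_lt [Nonempty X] {P : X → Prop} (h : dens P < 1) : ∃ x, ¬ P x := by
  by_contra hcon
  push Not at hcon
  have : dens P = 1 := by
    rw [← dens_true (X := X)]
    exact dens_congr (fun x => ⟨fun _ => trivial, fun _ => hcon x⟩)
  linarith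

/-- fibrewise bound -/
lemma dens_update {ι : Type*} [Fintype ι] [DecidableEq ι] [Nonempty X] (P : (ι → X) → Prop)
    (i : ι) (p : ℝ) (h : ∀ a : ι → X, dens (fun x => P (Function.update a i x)) ≤ p) :
    dens P ≤ p := by
  classical
  have hX : (0 : ℝ) < (Fintype.card X : ℝ) := by exact_mod_cast Fintype.card_pos
  have hA : (0 : ℝ) < (Fintype.card (ι → X) : ℝ) := by exact_mod_cast Fintype.card_pos
  have key : ∑ a : ι → X, ((univ.filter fun x => P (Function.update a i x)).card : ℝ)
      = (Fintype.card X : ℝ) * ((univ.filter P).card : ℝ) := by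
    have h1 : ∀ a : ι → X, ((univ.filter fun x => P (Function.update a i x)).card : ℝ)
        = ∑ x : X, if P (Function.update a i x) then (1 : ℝ) else 0 := by
      intro a
      rw [card_filter]
      push_cast
      rfl
    have h2 : ((univ.filter P).card : ℝ) = ∑ a : ι → X, if P a then (1 : ℝ) else 0 := by
      rw [card_filter]
      push_cast
      rfl
    simp_rw [h1]
    rw [h2, mul_sum]
    -- the map (a, x) ↦ (update a i x, a i) is an involution-like bijection
    rw [← Finset.sum_product' (s := univ) (t := univ)
      (f := fun (a : ι → X) (x : X) => if P (Function.update a i x) then (1 : ℝ) else 0)]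
    have h3 : ∀ a : ι → X, (Fintype.card X : ℝ) * (if P a then (1 : ℝ) else 0)
        = ∑ _x : X, if P a then (1 : ℝ) else 0 := by
      intro a
      rw [sum_const, nsmul_eq_mul]
      simp
    simp_rw [h3]
    rw [← Finset.sum_product' (s := univ) (t := univ)
      (f := fun (a : ι → X) (_ : X) => if P a then (1 : ℝ) else 0)]
    refine Finset.sum_bij' (fun q _ => (Function.update q.1 i q.2, q.1 i))
      (fun q _ => (Function.update q.1 i q.2, q.1 i)) ?_ ?_ ?_ ?_ ?_
    · intro q _; simp
    · intro q _; simp
    · intro q _; simp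
    · intro q _; simp
    · intro q _; rfl
  have h4 : ∑ a : ι → X, ((univ.filter fun x => P (Function.update a i x)).card : ℝ)
      ≤ ∑ _a : ι → X, p * (Fintype.card X : ℝ) := by
    apply sum_le_sum
    intro a _
    have := h a
    unfold dens at this
    rw [div_le_iff₀ hX] at this
    exact this
  rw [key, sum_const, nsmul_eq_mul] at h4
  unfold dens
  rw [div_le_iff₀ hA]
  have h5 : (Fintype.card X : ℝ) * ((univ.filter P).card : ℝ)
      ≤ (Fintype.card X : ℝ) * (p * (Fintype.card (ι → X) : ℝ)) := by
    rw [card_univ] at h4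
    linarith
  exact le_of_mul_le_mul_left h5 hX

lemma dens_forall (t : ℕ) (Q : X → Prop) [Nonempty X] :
    dens (fun a : Fin t → X => ∀ k, Q (a k)) = dens Q ^ t := by
  classical
  rw [dens_eq, dens_eq Q]
  have h1 : (univ.filter fun a : Fin t → X => ∀ k, Q (a k))
      = Fintype.piFinset (fun _ => univ.filter Q) := by
    ext a
    simp [Fintype.mem_piFinset]
  rw [h1, Fintype.card_piFinset]
  simp [div_pow]

end Pool.Agent.R56.Dens
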