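import Mathlib
import Pool.Agent.R56.Dens

set_option autoImplicit false

/-!
Finite permutation groups with a base of size `d` and an asymmetric set have a bounded asymmetric
set.
-/

namespace Pool.Agent.R56.Cost

open Finset Pool.Agent.R56.Dens
set_option linter.unusedSectionVars false

section group
variable {A Ω : Type} [Group A] [Fintype A] [Fintype Ω] [MulAction A Ω]

/-- size of the orbit -/
noncomputable def osz (A : Type) {Ω : Type} [Group A] [MulAction A Ω] (b : Ω) : ℕ :=
  Nat.card (MulAction.orbit A b)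

lemma osz_pos (b : Ω) : 0 < osz A b := by
  unfold osz
  have : Nonempty (MulAction.orbit A b) := ⟨⟨b, MulAction.mem_orbit_self b⟩⟩
  exact Nat.card_pos

lemma dens_eq_le (b y : Ω) : dens (fun a : A => a • b = y) ≤ 1 / (osz A b : ℝ) := by
  classical
  have hn : (0 : ℝ) < (osz A b : ℝ) := by exact_mod_cast osz_pos b
  have hA : (0 : ℝ) < (Fintype.card A : ℝ) := by exact_mod_cast Fintype.card_pos
  by_cases h : ∃ a0 : A, a0 • b = y
  · obtain ⟨a0, rfl⟩ := h
    rw [dens_eq]
    have h1 : (univ.filter fun a : A => a • b = a0 • b).card =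
        Nat.card (MulAction.stabilizer A b) := by
      rw [Nat.card_eq_fintype_card, Fintype.card_subtype]
      refine Finset.card_bij (fun a _ => a0⁻¹ * a) ?_ ?_ ?_
      · intro a ha
        simp only [mem_filter, mem_univ, true_and] at ha ⊢
        rw [MulAction.mem_stabilizer_iff, mul_smul, ha, inv_smul_smul]
      · intro a _ a' _ haa
        exact mul_left_cancel haa
      · intro a ha
        simp only [mem_filter, mem_univ, true_and] at ha
        rw [MulAction.mem_stabilizer_iff] at ha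
        refine ⟨a0 * a, ?_, by simp⟩
        simp only [mem_filter, mem_univ, true_and]
        rw [mul_smul, ha]
    have h2 : osz A b * Nat.card (MulAction.stabilizer A b) = Nat.card A :=
      Nat.card_congr (MulAction.orbitProdStabilizerEquivGroup A b) ▸ (Nat.card_prod _ _).symm
    rw [h1, div_le_div_iff₀ hA hn, one_mul]
    rw [Nat.card_eq_fintype_card (α := A)] at h2
    have h3 : ((osz A b * Nat.card (MulAction.stabilizer A b) : ℕ) : ℝ) = (Fintype.card A : ℝ) := by
      exact_mod_cast h2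
    push_cast at h3
    linarith
  · push Not at h
    have : dens (fun a : A => a • b = y) = 0 := by
      rw [dens_eq]
      have : (univ.filter fun a : A => a • b = y) = ∅ := by
        ext a; simp [h a]
      rw [this]; simp
    rw [this]; positivity

lemma dens_mem_le (b : Ω) (T : Finset Ω) :
    dens (fun a : A => a • b ∈ T) ≤ T.card * (1 / (osz A b : ℝ)) := by
  classical
  calc dens (fun a : A => a • b ∈ T) ≤ dens (fun a : A => ∃ y ∈ T, a • b = y) := by
        apply Dens.dens_mono; intro a ha; exact ⟨_, ha, rfl⟩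
    _ ≤ _ := dens_exists_le T _ _ (fun y _ => dens_eq_le b y)

/-- proportion of the translates of `b` that are moved by `g` -/
noncomputable def mvd (b : Ω) (g : A) : ℝ := dens (fun a : A => g • a • b ≠ a • b)

lemma mvd_nonneg (b : Ω) (g : A) : 0 ≤ mvd b g := dens_nonneg _

lemma mvd_inv_mul (b : Ω) (g h : A) : mvd b (g⁻¹ * h) ≤ mvd b g + mvd b h := by
  unfold mvd
  refine le_trans (Dens.dens_mono ?_) (dens_or _ _)
  intro a ha
  by_contra hcon
  push Not at hcon
  apply ha
  rw [mul_smul, hcon.2]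
  rw [inv_smul_eq_iff, hcon.1]

variable {d : ℕ}

/-- the base property -/
def IsBase (A : Type) {Ω : Type} [Group A] [MulAction A Ω] {d : ℕ} (b : Fin d → Ω) : Prop :=
  ∀ g : A, (∀ i, g • b i = b i) → g = 1

lemma IsBase.translate {b : Fin d → Ω} (hb : IsBase A b) (c : A) :
    IsBase A (fun i => c • b i) := by
  intro g hg
  have : c⁻¹ * g * c = 1 := by
    apply hb
    intro i
    have := hg i
    simp only at this
    rw [mul_smul, mul_smul, this, inv_smul_smul]
  have h2 : g = c * (c⁻¹ * g * c) * c⁻¹ := by group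
  rw [h2, this]; group

lemma exists_moved {b : Fin d → Ω} (hb : IsBase A b) {g : A} (hg : g ≠ 1) :
    ∃ i, 1 / (d : ℝ) ≤ mvd (b i) g := by
  by_contra hcon
  push Not at hcon
  have h1 : dens (fun a : A => ∃ i, g • a • b i ≠ a • b i) = 1 := by
    rw [← dens_true (X := A)]
    apply dens_congr
    intro a
    refine ⟨fun _ => trivial, fun _ => ?_⟩
    by_contra h
    push Not at h
    exact hg (hb.translate a g h)
  have hd : d ≠ 0 := by
    rintro rfl
    apply hg
    exact hb g (fun i => i.elim0)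
  have h2 := dens_exists (fun (i : Fin d) (a : A) => g • a • b i ≠ a • b i)
  rw [h1] at h2
  have h3 : ∑ i : Fin d, dens (fun a : A => g • a • b i ≠ a • b i) < ∑ _i : Fin d, 1 / (d : ℝ) := by
    apply sum_lt_sum_of_nonempty
    · exact ⟨⟨0, Nat.pos_of_ne_zero hd⟩, mem_univ _⟩
    · intro i _
      exact hcon i
  rw [sum_const, nsmul_eq_mul, card_univ, Fintype.card_fin] at h3
  have hd' : (d : ℝ) ≠ 0 := by exact_mod_cast hd
  have h4 : (d : ℝ) * (1 / (d : ℝ)) = 1 := by field_simp
  rw [h4] at h3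
  linarith

/-- A fixed element moving a proportion `δ` of the orbit of `b` rarely maps all of `t` random points
of this orbit into the set formed by a fixed set `R` and these points. -/
lemma test (b : Ω) (g : A) (δ : ℝ) (_hδ : δ ≤ mvd b g) (t : ℕ) (R : Finset Ω) :
    dens (fun a : Fin t → A => ∀ k, g • a k • b ∈ R ∨ ∃ l, g • a k • b = a l • b) ≤
      t * (R.card + t) * (1 / (osz A b : ℝ)) + (1 - mvd b g) ^ t := by
  classical
  have hn : (0 : ℝ) < (osz A b : ℝ) := by exact_mod_cast osz_pos b
  have h1 : dens (fun a : Fin t → A => ∀ k, g • a k • b ∈ R ∨ ∃ l, g • a k • b = a l • b) ≤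
      dens (fun a : Fin t → A => ((∃ k ∈ (univ : Finset (Fin t)), g • a k • b ∈ R) ∨
        (∃ q ∈ (univ : Finset (Fin t × Fin t)), q.1 ≠ q.2 ∧ g • a q.1 • b = a q.2 • b)) ∨
        (∀ k, g • a k • b = a k • b)) := by
    apply Dens.dens_mono
    intro a ha
    by_contra hcon
    push Not at hcon
    obtain ⟨⟨h1, h2⟩, k, h3⟩ := hcon
    rcases ha k with h | ⟨l, hl⟩
    · exact h1 k (mem_univ _) h
    · by_cases hkl : k = l
      · rw [← hkl] at hl; exact h3 hl
      · exact h2 (k, l) (mem_univ _) hkl hl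
  refine h1.trans ((dens_or _ _).trans ?_)
  have e1 : dens (fun a : Fin t → A => (∃ k ∈ (univ : Finset (Fin t)), g • a k • b ∈ R)) ≤
      t * (R.card * (1 / (osz A b : ℝ))) := by
    have := dens_exists_le (X := Fin t → A) (univ : Finset (Fin t))
      (fun k a => g • a k • b ∈ R) (R.card * (1 / (osz A b : ℝ))) ?_
    · simpa using this
    · intro k _
      apply dens_update (fun a : Fin t → A => g • a k • b ∈ R) k
      intro a
      have : dens (fun x : A => g • (Function.update a k x) k • b ∈ R) ≤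
          dens (fun x : A => x • b ∈ R.image (fun y => g⁻¹ • y)) := by
        apply Dens.dens_mono
        intro x hx
        rw [Function.update_self] at hx
        rw [mem_image]
        exact ⟨_, hx, by simp⟩
      refine this.trans ((dens_mem_le b _).trans ?_)
      apply mul_le_mul_of_nonneg_right _ (by positivity)
      exact_mod_cast card_image_le
  have e2 : dens (fun a : Fin t → A => (∃ q ∈ (univ : Finset (Fin t × Fin t)),
      q.1 ≠ q.2 ∧ g • a q.1 • b = a q.2 • b)) ≤ t * t * (1 / (osz A b : ℝ)) := by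
    have := dens_exists_le (X := Fin t → A) (univ : Finset (Fin t × Fin t))
      (fun q a => q.1 ≠ q.2 ∧ g • a q.1 • b = a q.2 • b) (1 / (osz A b : ℝ)) ?_
    · simpa using this
    · rintro ⟨k, l⟩ _
      by_cases hkl : k = l
      · have : dens (fun a : Fin t → A => (k, l).1 ≠ (k, l).2 ∧ g • a (k, l).1 • b = a (k, l).2 • b)
            ≤ dens (fun _ : Fin t → A => False) := by
          apply Dens.dens_mono
          intro a ha
          exact ha.1 hkl
        refine this.trans ?_
        have h0 : dens (fun _ : Fin t → A => False) = 0 := by rw [dens_eq]; simp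
        rw [h0]; positivity
      · apply dens_update (fun a : Fin t → A => (k, l).1 ≠ (k, l).2 ∧
          g • a (k, l).1 • b = a (k, l).2 • b) l
        intro a
        refine le_trans (Dens.dens_mono ?_) (dens_eq_le (A := A) b (g • a k • b))
        rintro x ⟨-, hx⟩
        simp only at hx
        rw [Function.update_self, Function.update_of_ne hkl] at hx
        exact hx.symm
  have e3 : dens (fun a : Fin t → A => ∀ k, g • a k • b = a k • b) = (1 - mvd b g) ^ t := by
    rw [dens_forall t (fun x : A => g • x • b = x • b)]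
    unfold mvd
    have := dens_not (fun x : A => g • x • b = x • b)
    rw [this]
    ring
  rw [e3]
  have e4 := dens_or (fun a : Fin t → A => (∃ k ∈ (univ : Finset (Fin t)), g • a k • b ∈ R))
    (fun a => (∃ q ∈ (univ : Finset (Fin t × Fin t)), q.1 ≠ q.2 ∧ g • a q.1 • b = a q.2 • b))
  have e5 : (t : ℝ) * (R.card + t) * (1 / (osz A b : ℝ)) =
      t * (R.card * (1 / (osz A b : ℝ))) + t * t * (1 / (osz A b : ℝ)) := by ring
  linarith

end group

section main
variable {A Ω : Type} [Group A] [Fintype A] [Fintype Ω] [MulAction A Ω] {d : ℕ}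

/-- the union of the orbits with index outside `L` -/
noncomputable def small (A : Type) {Ω : Type} [Group A] [Fintype Ω] [MulAction A Ω] {d : ℕ}
    (b : Fin d → Ω) (L : Finset (Fin d)) : Finset Ω := by
  classical exact univ.filter fun x => ∃ i, i ∉ L ∧ x ∈ MulAction.orbit A (b i)

lemma mem_small {b : Fin d → Ω} {L : Finset (Fin d)} {x : Ω} :
    x ∈ small A b L ↔ ∃ i, i ∉ L ∧ x ∈ MulAction.orbit A (b i) := by
  classical
  unfold small
  simp

lemma card_small (b : Fin d → Ω) (L : Finset (Fin d)) (K : ℕ)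
    (h : ∀ i, i ∉ L → osz A (b i) ≤ K) : (small A b L).card ≤ d * K := by
  classical
  have h1 : small A b L ⊆ (univ.filter fun i => i ∉ L).biUnion
      (fun i => (Set.toFinite (MulAction.orbit A (b i))).toFinset) := by
    intro x hx
    rw [mem_small] at hx
    obtain ⟨i, hi, hx⟩ := hx
    rw [mem_biUnion]
    exact ⟨i, by simpa using hi, by simpa using hx⟩
  refine (card_le_card h1).trans ?_
  refine (card_biUnion_le_card_mul _ _ K ?_).trans ?_
  · intro i hi
    have h2 := h i (by simpa using hi)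
    unfold osz at h2
    rw [← Set.ncard_eq_toFinset_card]
    exact h2
  · apply Nat.mul_le_mul_right
    exact (card_le_univ _).trans (by simp)

lemma smul_small {b : Fin d → Ω} {L : Finset (Fin d)} {x : Ω} (g : A) (hx : x ∈ small A b L) :
    g • x ∈ small A b L := by
  rw [mem_small] at hx ⊢
  obtain ⟨i, hi, hx⟩ := hx
  obtain ⟨a, rfl⟩ := hx
  refine ⟨i, hi, g * a, ?_⟩
  simp only [mul_smul]

/-- The elements moving only a small proportion of each large orbit. -/
noncomputable def bad (A : Type) {Ω : Type} [Group A] [Fintype A] [Fintype Ω] [MulAction A Ω]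
    {d : ℕ} (b : Fin d → Ω) (L : Finset (Fin d)) : Finset A := by
  classical exact univ.filter fun g => g ≠ 1 ∧ ∀ i ∈ L, mvd (b i) g < 1 / (2 * (d : ℝ))

lemma mem_bad {b : Fin d → Ω} {L : Finset (Fin d)} {g : A} :
    g ∈ bad A b L ↔ g ≠ 1 ∧ ∀ i ∈ L, mvd (b i) g < 1 / (2 * (d : ℝ)) := by
  classical
  unfold bad
  simp

lemma card_bad {b : Fin d → Ω} (hb : IsBase A b) (L : Finset (Fin d)) (K : ℕ)
    (h : ∀ i, i ∉ L → osz A (b i) ≤ K) : (bad A b L).card ≤ (d * K + 1) ^ (d * K) := by
  classical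
  have hs := card_small (A := A) b L K h
  have h1 : (bad A b L).card ≤ (univ : Finset (small A b L → small A b L)).card := by
    refine Finset.card_le_card_of_injOn
      (fun g => fun x => (⟨g • x.1, smul_small g x.2⟩ : small A b L)) (fun _ _ => mem_univ _) ?_
    intro g hg g' hg' hgg
    rw [mem_coe, mem_bad] at hg hg'
    by_contra hne
    have hne' : g⁻¹ * g' ≠ 1 := by
      intro h
      apply hne
      rw [inv_mul_eq_one] at h
      exact h
    obtain ⟨i, hi⟩ := exists_moved hb hne'
    by_cases hiL : i ∈ L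
    · have h2 := mvd_inv_mul (b i) g g'
      have h3 := hg.2 i hiL
      have h4 := hg'.2 i hiL
      have h5 : 1 / (2 * (d : ℝ)) + 1 / (2 * (d : ℝ)) = 1 / (d : ℝ) := by
        have hd : (d : ℝ) ≠ 0 := by
          have : 0 < d := i.pos
          positivity
        field_simp
        norm_num
      linarith
    · have h2 : mvd (b i) (g⁻¹ * g') = 0 := by
        unfold mvd
        have : dens (fun a : A => (g⁻¹ * g') • a • b i ≠ a • b i) =
            dens (fun _ : A => False) := by
          apply dens_congr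
          intro a
          simp only [ne_eq, iff_false, not_not]
          have hx : a • b i ∈ small A b L := by
            rw [mem_small]
            exact ⟨i, hiL, MulAction.mem_orbit _ _⟩
          have h6 := congrFun hgg ⟨a • b i, hx⟩
          simp only [Subtype.mk.injEq] at h6
          rw [mul_smul, ← h6, inv_smul_smul]
        rw [this, dens_eq]
        simp
      rw [h2] at hi
      have hd : (0 : ℝ) < d := by exact_mod_cast i.pos
      have : 0 < 1 / (d : ℝ) := by positivity
      linarith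
  refine h1.trans ?_
  rw [card_univ, Fintype.card_fun, Fintype.card_coe]
  calc (small A b L).card ^ (small A b L).card ≤ (d * K + 1) ^ (small A b L).card :=
        Nat.pow_le_pow_left (by omega) _
    _ ≤ (d * K + 1) ^ (d * K) := Nat.pow_le_pow_right (by omega) hs

/-- the points of the group `q` -/
noncomputable def pts (b : Fin d → Ω) (L : Finset (Fin d)) {t : ℕ}
    (a : Fin (d + 1) × Fin d → Fin t → A) (q : Fin (d + 1) × Fin d) : Finset Ω := by
  classical exact if q.2 ∈ L then univ.image (fun k => a q k • b q.2) else ∅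

lemma card_pts (b : Fin d → Ω) (L : Finset (Fin d)) {t : ℕ}
    (a : Fin (d + 1) × Fin d → Fin t → A) (q : Fin (d + 1) × Fin d) :
    (pts b L a q).card ≤ t := by
  classical
  unfold pts
  split_ifs
  · exact card_image_le.trans (by simp)
  · simp

lemma mem_pts {b : Fin d → Ω} {L : Finset (Fin d)} {t : ℕ}
    {a : Fin (d + 1) × Fin d → Fin t → A} {q : Fin (d + 1) × Fin d} {y : Ω} :
    y ∈ pts b L a q ↔ q.2 ∈ L ∧ ∃ k, a q k • b q.2 = y := by
  classical
  unfold pts
  split_ifs with h
  · simp [h]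
  · simp [h]

open Classical in
/-- the points outside the group `q` -/
noncomputable def oth (b : Fin d → Ω) (L : Finset (Fin d)) (Z : Finset Ω) {t : ℕ}
    (a : Fin (d + 1) × Fin d → Fin t → A) (q : Fin (d + 1) × Fin d) : Finset Ω :=
  Z ∪ (univ.erase q).biUnion (pts b L a)

open Classical in
/-- all the points -/
noncomputable def allp (b : Fin d → Ω) (L : Finset (Fin d)) (Z : Finset Ω) {t : ℕ}
    (a : Fin (d + 1) × Fin d → Fin t → A) : Finset Ω :=
  Z ∪ univ.biUnion (pts b L a)

lemma oth_subset (b : Fin d → Ω) (L : Finset (Fin d)) (Z : Finset Ω) {t : ℕ}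
    (a : Fin (d + 1) × Fin d → Fin t → A) (q : Fin (d + 1) × Fin d) :
    oth b L Z a q ⊆ allp b L Z a := by
  classical
  unfold oth allp
  apply union_subset_union_right
  exact biUnion_subset_biUnion_of_subset_left _ (erase_subset _ _)

lemma card_allp (b : Fin d → Ω) (L : Finset (Fin d)) (Z : Finset Ω) {t : ℕ}
    (a : Fin (d + 1) × Fin d → Fin t → A) :
    (allp b L Z a).card ≤ Z.card + (d + 1) * d * t := by
  classical
  unfold allp
  refine (card_union_le _ _).trans ?_
  have := card_biUnion_le_card_mul (univ : Finset (Fin (d + 1) × Fin d)) (pts b L a) t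
    (fun q _ => card_pts b L a q)
  simp only [card_univ, Fintype.card_prod, Fintype.card_fin] at this
  omega

lemma oth_update (b : Fin d → Ω) (L : Finset (Fin d))
    (Z : Finset Ω) {t : ℕ}
    (a : Fin (d + 1) × Fin d → Fin t → A) (q : Fin (d + 1) × Fin d) (x : Fin t → A) :
    oth b L Z (Function.update a q x) q = oth b L Z a q := by
  classical
  unfold oth
  congr 1
  apply biUnion_congr rfl
  intro r hr
  have hne : r ≠ q := (mem_erase.1 hr).1
  ext y
  rw [mem_pts, mem_pts, Function.update_of_ne hne]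

lemma mem_allp_iff {b : Fin d → Ω} {L : Finset (Fin d)} {Z : Finset Ω} {t : ℕ}
    {a : Fin (d + 1) × Fin d → Fin t → A} {y : Ω} :
    y ∈ allp b L Z a ↔ y ∈ Z ∨ ∃ q, y ∈ pts b L a q := by
  classical
  unfold allp
  simp

lemma mem_oth_iff {b : Fin d → Ω} {L : Finset (Fin d)} {Z : Finset Ω} {t : ℕ}
    {a : Fin (d + 1) × Fin d → Fin t → A} {q : Fin (d + 1) × Fin d} {y : Ω} :
    y ∈ oth b L Z a q ↔ y ∈ Z ∨ ∃ r, r ≠ q ∧ y ∈ pts b L a r := by
  classical
  unfold oth
  simp

/-- the second failure event for the group `q` -/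
def Ev (b : Fin d → Ω) (L : Finset (Fin d)) (Z : Finset Ω) (c : A) {t : ℕ}
    (q : Fin (d + 1) × Fin d) (a : Fin (d + 1) × Fin d → Fin t → A) : Prop :=
  ∃ g : A, 1 / (2 * (d : ℝ)) ≤ mvd (b q.2) g ∧
    (∀ i, g • c • b i ∈ oth b L Z a q ∨ g • c • b i ∈ small A b L) ∧
    ∀ k, g • a q k • b q.2 ∈ oth b L Z a q ∨ ∃ l, g • a q k • b q.2 = a q l • b q.2

lemma dens_Ev {b : Fin d → Ω} (hb : IsBase A b) (L : Finset (Fin d)) (K T M : ℕ) (hT : 0 < T)
    (hK : ∀ i, i ∉ L → osz A (b i) ≤ K) (hL : ∀ i ∈ L, T ≤ osz A (b i))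
    (Z : Finset Ω) (c : A) {t : ℕ} (hM : Z.card + (d + 1) * d * t ≤ M)
    (q : Fin (d + 1) × Fin d) (hq : q.2 ∈ L) :
    dens (Ev (A := A) b L Z c (t := t) q) ≤
      ((M + d * K : ℕ) : ℝ) ^ d * (t * (M + t) * (1 / (T : ℝ)) + (1 - 1 / (2 * (d : ℝ))) ^ t) := by
  classical
  apply dens_update _ q
  intro a
  -- the candidates
  obtain ⟨C, hC⟩ : ∃ C : Finset A, C = univ.filter fun g : A =>
    1 / (2 * (d : ℝ)) ≤ mvd (b q.2) g ∧
    ∀ i, g • c • b i ∈ oth b L Z a q ∨ g • c • b i ∈ small A b L := ⟨_, rfl⟩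
  have hR : (oth b L Z a q).card ≤ M :=
    (card_le_card (oth_subset b L Z a q)).trans ((card_allp b L Z a).trans hM)
  have hcard : C.card ≤ (M + d * K) ^ d := by
    have h1 : C.card ≤ (Fintype.piFinset (fun _ : Fin d => oth b L Z a q ∪ small A b L)).card := by
      refine Finset.card_le_card_of_injOn (fun g => fun i => g • c • b i) ?_ ?_
      · intro g hg
        rw [mem_coe, hC, mem_filter] at hg
        rw [mem_coe, Fintype.mem_piFinset]
        intro i
        rw [mem_union]
        exact hg.2.2 i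
      · intro g _ g' _ hgg
        have : g⁻¹ * g' = 1 := by
          apply hb.translate c
          intro i
          have h2 := congrFun hgg i
          simp only at h2 ⊢
          rw [mul_smul, ← h2, inv_smul_smul]
        exact (inv_mul_eq_one.1 this)
    refine h1.trans ?_
    rw [Fintype.card_piFinset]
    simp only [prod_const, card_univ, Fintype.card_fin]
    apply Nat.pow_le_pow_left
    exact (card_union_le _ _).trans (Nat.add_le_add hR (card_small b L K hK))
  have h2 : dens (fun x => Ev (A := A) b L Z c (t := t) q (Function.update a q x)) ≤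
      dens (fun x : Fin t → A => ∃ g ∈ C, ∀ k, g • x k • b q.2 ∈ oth b L Z a q ∨
        ∃ l, g • x k • b q.2 = x l • b q.2) := by
    apply Dens.dens_mono
    rintro x ⟨g, hg1, hg2, hg3⟩
    rw [oth_update] at hg2 hg3
    rw [Function.update_self] at hg3
    exact ⟨g, by rw [hC, mem_filter]; exact ⟨mem_univ _, hg1, hg2⟩, hg3⟩
  have hTR : (0 : ℝ) < T := by exact_mod_cast hT
  have hbase : 0 ≤ t * ((M : ℝ) + t) * (1 / (T : ℝ)) + (1 - 1 / (2 * (d : ℝ))) ^ t := by
    have hd : 0 < d := q.2.pos
    have hd1 : (1 : ℝ) ≤ d := by exact_mod_cast hd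
    have : 0 ≤ 1 - 1 / (2 * (d : ℝ)) := by
      rw [sub_nonneg, div_le_one (by positivity)]
      linarith
    positivity
  refine h2.trans ((dens_exists_le C _ (t * ((M : ℝ) + t) * (1 / (T : ℝ)) +
    (1 - 1 / (2 * (d : ℝ))) ^ t) ?_).trans ?_)
  · intro g hg
    rw [hC, mem_filter] at hg
    refine (test (b q.2) g _ hg.2.1 t (oth b L Z a q)).trans ?_
    have hTo : (T : ℝ) ≤ osz A (b q.2) := by exact_mod_cast hL q.2 hq
    apply add_le_add
    · apply mul_le_mul _ (one_div_le_one_div_of_le hTR hTo) (by positivity) (by positivity)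
      apply mul_le_mul_of_nonneg_left _ (Nat.cast_nonneg _)
      have : ((oth b L Z a q).card : ℝ) ≤ M := by exact_mod_cast hR
      linarith
    · apply pow_le_pow_left₀
      · have := dens_le_one (fun a : A => g • a • b q.2 ≠ a • b q.2)
        unfold mvd
        linarith
      · linarith [hg.2.1]
  · apply mul_le_mul_of_nonneg_right _ hbase
    exact_mod_cast hcard

open Classical in
/-- the main step: orbits of size at most `K` and at least `T` -/
lemma gap (hd : 1 ≤ d) (K t T Q M : ℕ) (hT : 0 < T) (hQ : Q = (d * K + 1) ^ (d * K))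
    (hM : M = Q + d + (d + 1) * d * t)
    (hA : (Q : ℝ) * d * (1 / (T : ℝ)) < 1)
    (hB : (Q : ℝ) * ((d + 1) * d * t) * (1 / (T : ℝ)) + ((d + 1) * d : ℝ) *
      (((M + d * K : ℕ) : ℝ) ^ d * (t * (M + t) * (1 / (T : ℝ)) + (1 - 1 / (2 * (d : ℝ))) ^ t)) < 1)
    (b : Fin d → Ω) (hb : IsBase A b) (S0 : Finset Ω)
    (hS0 : ∀ g : A, S0.image (fun x => g • x) = S0 → g = 1)
    (hgap : ∀ i, osz A (b i) ≤ K ∨ T ≤ osz A (b i)) :
    ∃ S : Finset Ω, S.card ≤ M ∧ ∀ g : A, S.image (fun x => g • x) = S → g = 1 := by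
  obtain ⟨L, hLdef⟩ : ∃ L : Finset (Fin d), L = univ.filter fun i => T ≤ osz A (b i) := ⟨_, rfl⟩
  have hL : ∀ i ∈ L, T ≤ osz A (b i) := by
    intro i hi; rw [hLdef, mem_filter] at hi; exact hi.2
  have hK : ∀ i, i ∉ L → osz A (b i) ≤ K := by
    intro i hi
    rcases hgap i with h | h
    · exact h
    · exfalso; apply hi; rw [hLdef, mem_filter]; exact ⟨mem_univ _, h⟩
  have hTR : (0 : ℝ) < T := by exact_mod_cast hT
  have hLc : L.card ≤ d := (card_le_univ _).trans (by simp)
  have hBc : (bad A b L).card ≤ Q := by rw [hQ]; exact card_bad hb L K hK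
  -- the points killing the bad elements
  have hx : ∀ g : A, ∃ x : Ω, g ∈ bad A b L → x ∈ S0 ∧ g • x ∉ S0 := by
    intro g
    by_cases hg : g ∈ bad A b L
    · by_contra hcon
      push Not at hcon
      have h1 : S0.image (fun x => g • x) ⊆ S0 := by
        intro y hy
        rw [mem_image] at hy
        obtain ⟨x, hx, rfl⟩ := hy
        exact (hcon x).2 hx
      have h2 := eq_of_subset_of_card_le h1 (by
        rw [card_image_of_injective _ (MulAction.injective g)])
      exact (mem_bad.1 hg).1 (hS0 g h2)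
    · by_cases hne : Nonempty Ω
      · exact ⟨Classical.choice hne, fun h => absurd h hg⟩
      · exfalso
        apply hg
        rw [mem_bad]
        have : g = 1 := hb g (fun i => absurd ⟨b i⟩ hne)
        have hi : Fin d := ⟨0, hd⟩
        exact absurd ⟨b hi⟩ hne
  choose x hx using hx
  -- a good translate of the base
  obtain ⟨c, hc⟩ : ∃ c : A, ¬ ∃ q ∈ bad A b L ×ˢ L, c • b q.2 = q.1 • x q.1 := by
    apply exists_of_dens_lt
    refine lt_of_le_of_lt (dens_exists_le _ _ (1 / (T : ℝ)) ?_) ?_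
    · rintro ⟨g, i⟩ hq
      rw [mem_product] at hq
      refine (dens_eq_le (A := A) (b i) _).trans ?_
      apply one_div_le_one_div_of_le hTR
      exact_mod_cast hL i hq.2
    · rw [card_product]
      refine lt_of_le_of_lt ?_ hA
      apply mul_le_mul_of_nonneg_right _ (by positivity)
      have : (bad A b L).card * L.card ≤ Q * d := Nat.mul_le_mul hBc hLc
      exact_mod_cast this
  obtain ⟨Y, hY⟩ : ∃ Y : Finset Ω, Y = (bad A b L).image x := ⟨_, rfl⟩
  obtain ⟨BL, hBL⟩ : ∃ BL : Finset Ω, BL = L.image (fun i => c • b i) := ⟨_, rfl⟩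
  obtain ⟨Z, hZ⟩ : ∃ Z : Finset Ω, Z = Y ∪ BL := ⟨_, rfl⟩
  have hZc : Z.card ≤ Q + d := by
    rw [hZ]
    refine (card_union_le _ _).trans (Nat.add_le_add ?_ ?_)
    · rw [hY]; exact card_image_le.trans hBc
    · rw [hBL]; exact card_image_le.trans hLc
  have hMZ : Z.card + (d + 1) * d * t ≤ M := by omega
  -- choose the random points
  obtain ⟨a, ha⟩ : ∃ a : Fin (d + 1) × Fin d → Fin t → A,
      ¬ ((∃ r ∈ (bad A b L) ×ˢ (univ : Finset ((Fin (d + 1) × Fin d) × Fin t)),
        r.2.1.2 ∈ L ∧ a r.2.1 r.2.2 • b r.2.1.2 = r.1 • x r.1) ∨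
        ∃ q ∈ (univ.filter fun q : Fin (d + 1) × Fin d => q.2 ∈ L), Ev (A := A) b L Z c q a) := by
    apply exists_of_dens_lt
    refine lt_of_le_of_lt (dens_or _ _) (lt_of_le_of_lt (add_le_add ?_ ?_) hB)
    · refine (dens_exists_le _ _ (1 / (T : ℝ)) ?_).trans ?_
      · rintro ⟨g, q, k⟩ _
        by_cases hqL : q.2 ∈ L
        · refine dens_update _ q _ ?_
          intro a
          refine dens_update _ k _ ?_
          intro a'
          refine le_trans (Dens.dens_mono ?_) ((dens_eq_le (A := A) (b q.2) (g • x g)).trans ?_)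
          · rintro y ⟨_, hy⟩
            simp only [Function.update_self] at hy
            exact hy
          · apply one_div_le_one_div_of_le hTR
            exact_mod_cast hL q.2 hqL
        · refine le_trans (Dens.dens_mono (Q := fun _ => False) ?_) ?_
          · rintro y ⟨h, _⟩
            exact hqL h
          · have h0 : dens (fun _ : Fin (d + 1) × Fin d → Fin t → A => False) = 0 := by
              rw [dens_eq]; simp
            rw [h0]; positivity
      · apply mul_le_mul_of_nonneg_right _ (by positivity)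
        rw [card_product]
        simp only [card_univ, Fintype.card_prod, Fintype.card_fin]
        have : (bad A b L).card * ((d + 1) * d * t) ≤ Q * ((d + 1) * d * t) :=
          Nat.mul_le_mul_right _ hBc
        exact_mod_cast this
    · have hpos : 0 ≤ (((M + d * K : ℕ) : ℝ) ^ d *
          (t * (M + t) * (1 / (T : ℝ)) + (1 - 1 / (2 * (d : ℝ))) ^ t)) := by
        have hd1 : (1 : ℝ) ≤ d := by exact_mod_cast hd
        have : 0 ≤ 1 - 1 / (2 * (d : ℝ)) := by
          rw [sub_nonneg, div_le_one (by positivity)]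
          linarith
        positivity
      refine (dens_exists_le _ _ _ ?_).trans (mul_le_mul_of_nonneg_right ?_ hpos)
      · intro q hq
        rw [mem_filter] at hq
        exact dens_Ev hb L K T M hT hK hL Z c hMZ q hq.2
      · have : (univ.filter fun q : Fin (d + 1) × Fin d => q.2 ∈ L).card ≤ (d + 1) * d :=
          (card_le_univ _).trans (by simp)
        exact_mod_cast this
  push Not at ha
  obtain ⟨ha1, ha2⟩ := ha
  refine ⟨allp b L Z a, (card_allp b L Z a).trans hMZ, ?_⟩
  intro g hg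
  by_contra hne
  have hmem : ∀ y ∈ allp b L Z a, g • y ∈ allp b L Z a := by
    intro y hy
    have h1 : g • y ∈ (allp b L Z a).image (fun x => g • x) := mem_image_of_mem _ hy
    rwa [hg] at h1
  by_cases hgb : g ∈ bad A b L
  · have hxg := hx g hgb
    have h1 : x g ∈ allp b L Z a := by
      rw [mem_allp_iff]
      left
      rw [hZ, mem_union, hY]
      left
      exact mem_image_of_mem _ hgb
    have h2 := hmem _ h1
    rw [mem_allp_iff, hZ, mem_union, hY, hBL] at h2
    rcases h2 with (h2 | h2) | ⟨q, h2⟩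
    · rw [mem_image] at h2
      obtain ⟨g', hg', h3⟩ := h2
      apply hxg.2
      rw [← h3]
      exact (hx g' hg').1
    · rw [mem_image] at h2
      obtain ⟨i, hi, h3⟩ := h2
      exact hc ⟨(g, i), by rw [mem_product]; exact ⟨hgb, hi⟩, h3⟩
    · rw [mem_pts] at h2
      obtain ⟨hq, k, h3⟩ := h2
      exact ha1 (g, q, k) (by rw [mem_product]; exact ⟨hgb, mem_univ _⟩) hq h3
  · -- `g` moves a large part of a large orbit
    obtain ⟨i0, hi0, hm⟩ : ∃ i0 ∈ L, 1 / (2 * (d : ℝ)) ≤ mvd (b i0) g := by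
      by_contra hcon
      push Not at hcon
      apply hgb
      rw [mem_bad]
      exact ⟨hne, hcon⟩
    have hall : ∀ i ∈ L, g • c • b i ∈ allp b L Z a := by
      intro i hi
      apply hmem
      rw [mem_allp_iff]
      left
      rw [hZ, mem_union, hBL]
      right
      exact mem_image.2 ⟨i, hi, rfl⟩
    obtain ⟨h, hh⟩ : ∃ h : Fin (d + 1), ∀ i ∈ L, g • c • b i ∈ oth b L Z a (h, i0) := by
      by_contra hcon
      push Not at hcon
      choose f hf1 hf2 using hcon
      obtain ⟨h, h', hne', hff⟩ := Fintype.exists_ne_map_eq_of_card_lt f (by simp)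
      have h1 := hall _ (hf1 h)
      rw [mem_allp_iff] at h1
      have h2 := hf2 h
      have h3 := hf2 h'
      rw [mem_oth_iff] at h2 h3
      push Not at h2 h3
      rcases h1 with h1 | ⟨q, h1⟩
      · exact h2.1 h1
      · by_cases hq : q = (h, i0)
        · rw [hq] at h1
          rw [hff] at h1
          refine h3.2 (h, i0) ?_ h1
          intro heq
          apply hne'
          exact congrArg Prod.fst heq
        · exact h2.2 q hq h1
    apply ha2 (h, i0) (by rw [mem_filter]; exact ⟨mem_univ _, hi0⟩)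
    refine ⟨g, hm, ?_, ?_⟩
    · intro i
      by_cases hi : i ∈ L
      · exact Or.inl (hh i hi)
      · right
        rw [mem_small]
        exact ⟨i, hi, by rw [← mul_smul]; exact MulAction.mem_orbit _ _⟩
    · intro k
      have h1 : a (h, i0) k • b i0 ∈ allp b L Z a := by
        rw [mem_allp_iff]
        right
        exact ⟨(h, i0), mem_pts.2 ⟨hi0, k, rfl⟩⟩
      have h2 := hmem _ h1
      rw [mem_allp_iff] at h2
      rcases h2 with h2 | ⟨q, h2⟩
      · left
        rw [mem_oth_iff]
        exact Or.inl h2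
      · by_cases hq : q = (h, i0)
        · right
          rw [hq, mem_pts] at h2
          obtain ⟨_, l, hl⟩ := h2
          exact ⟨l, hl.symm⟩
        · left
          rw [mem_oth_iff]
          exact Or.inr ⟨q, hq, h2⟩


/-- suitable parameters exist -/
lemma params (d K Q : ℕ) (hd : 1 ≤ d) : ∃ t T : ℕ, 0 < T ∧ K ≤ T ∧
    (Q : ℝ) * d * (1 / (T : ℝ)) < 1 ∧
    (Q : ℝ) * ((d + 1) * d * t) * (1 / (T : ℝ)) + ((d + 1) * d : ℝ) *
      ((((Q + d + (d + 1) * d * t) + d * K : ℕ) : ℝ) ^ d *
      (t * ((Q + d + (d + 1) * d * t : ℕ) + t) * (1 / (T : ℝ)) +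
        (1 - 1 / (2 * (d : ℝ))) ^ t)) < 1 := by
  have hd1 : (1 : ℝ) ≤ d := by exact_mod_cast hd
  obtain ⟨r, hr⟩ : ∃ r : ℝ, r = 1 - 1 / (2 * (d : ℝ)) := ⟨_, rfl⟩
  have hr0 : 0 ≤ r := by
    rw [hr, sub_nonneg, div_le_one (by positivity)]
    linarith
  have hr1 : r < 1 := by
    rw [hr]
    have : 0 < 1 / (2 * (d : ℝ)) := by positivity
    linarith
  have habs : |r| < 1 := by rw [abs_of_nonneg hr0]; exact hr1
  have hlim := tendsto_pow_const_mul_const_pow_of_abs_lt_one d habs
  obtain ⟨c, hc⟩ : ∃ c : ℝ, c = ((d + 1) * d : ℝ) * ((Q + d + (d + 1) * d + d * K : ℕ) : ℝ) ^ d :=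
    ⟨_, rfl⟩
  have hc0 : 0 ≤ c := by rw [hc]; positivity
  have hlim2 := hlim.const_mul c
  rw [mul_zero] at hlim2
  have h3 := (hlim2.eventually (gt_mem_nhds (show (0 : ℝ) < 1 / 3 by norm_num))).and
    (Filter.eventually_ge_atTop 1)
  obtain ⟨t, ht, ht1⟩ := h3.exists
  have key : ((d + 1) * d : ℝ) *
      ((((Q + d + (d + 1) * d * t) + d * K : ℕ) : ℝ) ^ d * r ^ t) < 1 / 3 := by
    refine lt_of_le_of_lt ?_ ht
    rw [hc]
    have h4 : (((Q + d + (d + 1) * d * t) + d * K : ℕ) : ℝ) ≤
        ((Q + d + (d + 1) * d + d * K : ℕ) : ℝ) * t := by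
      have : (Q + d + (d + 1) * d * t) + d * K ≤ (Q + d + (d + 1) * d + d * K) * t := by
        have h5 : Q ≤ Q * t := Nat.le_mul_of_pos_right _ ht1
        have h6 : d ≤ d * t := Nat.le_mul_of_pos_right _ ht1
        have h7 : d * K ≤ d * K * t := Nat.le_mul_of_pos_right _ ht1
        nlinarith
      exact_mod_cast this
    have h8 := pow_le_pow_left₀ (Nat.cast_nonneg _) h4 d
    rw [mul_pow] at h8
    have h9 : (((Q + d + (d + 1) * d * t) + d * K : ℕ) : ℝ) ^ d * r ^ t ≤
        ((Q + d + (d + 1) * d + d * K : ℕ) : ℝ) ^ d * (t : ℝ) ^ d * r ^ t :=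
      mul_le_mul_of_nonneg_right h8 (pow_nonneg hr0 t)
    calc _ ≤ ((d + 1) * d : ℝ) * (((Q + d + (d + 1) * d + d * K : ℕ) : ℝ) ^ d * (t : ℝ) ^ d *
          r ^ t) := mul_le_mul_of_nonneg_left h9 (by positivity)
      _ = _ := by ring
  obtain ⟨e1, he1⟩ : ∃ e : ℝ, e = (Q : ℝ) * ((d + 1) * d * t) := ⟨_, rfl⟩
  obtain ⟨e2, he2⟩ : ∃ e : ℝ, e = ((d + 1) * d : ℝ) *
      ((((Q + d + (d + 1) * d * t) + d * K : ℕ) : ℝ) ^ d *
      (t * ((Q + d + (d + 1) * d * t : ℕ) + t))) := ⟨_, rfl⟩
  obtain ⟨e3, he3⟩ : ∃ e : ℝ, e = (Q : ℝ) * d := ⟨_, rfl⟩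
  have h1 : 0 ≤ e1 := by rw [he1]; positivity
  have h2 : 0 ≤ e2 := by rw [he2]; positivity
  have h3' : 0 ≤ e3 := by rw [he3]; positivity
  obtain ⟨T, hT⟩ := exists_nat_gt (3 * (e1 + e2 + e3) + K + 1)
  have hT0 : (0 : ℝ) < T := by
    have : (0 : ℝ) ≤ K := Nat.cast_nonneg _
    linarith
  have hK0 : (0 : ℝ) ≤ K := Nat.cast_nonneg _
  refine ⟨t, T, by exact_mod_cast hT0, ?_, ?_, ?_⟩
  · have : (K : ℝ) ≤ T := by linarith
    exact_mod_cast this
  · rw [← he3, mul_one_div, div_lt_one hT0]
    linarith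
  · have e : (Q : ℝ) * ((d + 1) * d * t) * (1 / (T : ℝ)) + ((d + 1) * d : ℝ) *
      ((((Q + d + (d + 1) * d * t) + d * K : ℕ) : ℝ) ^ d *
      (t * ((Q + d + (d + 1) * d * t : ℕ) + t) * (1 / (T : ℝ)) +
        (1 - 1 / (2 * (d : ℝ))) ^ t)) = (e1 + e2) * (1 / T) + ((d + 1) * d : ℝ) *
      ((((Q + d + (d + 1) * d * t) + d * K : ℕ) : ℝ) ^ d * r ^ t) := by
      rw [he1, he2, hr]; ring
    rw [e]
    have h5 : (e1 + e2) * (1 / T) < 1 / 3 := by
      rw [mul_one_div, div_lt_div_iff₀ hT0 (by norm_num)]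
      linarith
    linarith

open Classical in
/-- the induction on the number of large orbits -/
lemma induct (d : ℕ) (hd : 1 ≤ d) (n : ℕ) : ∀ K : ℕ, ∃ C : ℕ, ∀ (A Ω : Type) [Group A] [Fintype A]
    [Fintype Ω] [MulAction A Ω] (b : Fin d → Ω), IsBase A b → ∀ S0 : Finset Ω,
    (∀ g : A, S0.image (fun x => g • x) = S0 → g = 1) →
    (univ.filter fun i => K < osz A (b i)).card ≤ n →
    ∃ S : Finset Ω, S.card ≤ C ∧ ∀ g : A, S.image (fun x => g • x) = S → g = 1 := by
  induction n with
  | zero =>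
    intro K
    obtain ⟨t, T, hT, _, hA, hB⟩ := params d K ((d * K + 1) ^ (d * K)) hd
    refine ⟨(d * K + 1) ^ (d * K) + d + (d + 1) * d * t, ?_⟩
    intro A Ω _ _ _ _ b hb S0 hS0 hc
    refine gap hd K t T _ _ hT rfl rfl hA hB b hb S0 hS0 ?_
    intro i
    left
    by_contra hcon
    push Not at hcon
    have : i ∈ univ.filter fun i => K < osz A (b i) := by simpa using hcon
    rw [Nat.le_zero, card_eq_zero] at hc
    rw [hc] at this
    simp at this
  | succ n ih =>
    intro K
    obtain ⟨t, T, hT, hKT, hA, hB⟩ := params d K ((d * K + 1) ^ (d * K)) hd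
    obtain ⟨C, hC⟩ := ih T
    refine ⟨max C ((d * K + 1) ^ (d * K) + d + (d + 1) * d * t), ?_⟩
    intro A Ω _ _ _ _ b hb S0 hS0 hc
    by_cases hgap : ∀ i, osz A (b i) ≤ K ∨ T ≤ osz A (b i)
    · obtain ⟨S, h1, h2⟩ := gap hd K t T _ _ hT rfl rfl hA hB b hb S0 hS0 hgap
      exact ⟨S, h1.trans (le_max_right _ _), h2⟩
    · push Not at hgap
      obtain ⟨i, hi1, hi2⟩ := hgap
      obtain ⟨S, h1, h2⟩ := hC A Ω b hb S0 hS0 (by
        have hlt : (univ.filter fun i => T < osz A (b i)).card <
            (univ.filter fun i => K < osz A (b i)).card := by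
          apply card_lt_card
          rw [ssubset_iff_of_subset]
          · refine ⟨i, by simpa using hi1, ?_⟩
            simp only [mem_filter, mem_univ, true_and]
            omega
          · intro j hj
            simp only [mem_filter, mem_univ, true_and] at hj ⊢
            omega
        omega)
      exact ⟨S, h1.trans (le_max_left _ _), h2⟩

open Classical in
/-- **Main theorem for permutation groups.** -/
theorem main (d : ℕ) : ∃ C : ℕ, ∀ (A Ω : Type) [Group A] [Fintype A]
    [Fintype Ω] [MulAction A Ω] (b : Fin d → Ω), IsBase A b → ∀ S0 : Finset Ω,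
    (∀ g : A, S0.image (fun x => g • x) = S0 → g = 1) →
    ∃ S : Finset Ω, S.card ≤ C ∧ ∀ g : A, S.image (fun x => g • x) = S → g = 1 := by
  rcases Nat.eq_zero_or_pos d with rfl | hd
  · refine ⟨0, ?_⟩
    intro A Ω _ _ _ _ b hb S0 hS0
    exact ⟨∅, by simp, fun g _ => hb g (fun i => i.elim0)⟩
  · obtain ⟨C, hC⟩ := induct d hd d 0
    refine ⟨C, ?_⟩
    intro A Ω _ _ _ _ b hb S0 hS0
    exact hC A Ω b hb S0 hS0 ((card_le_univ _).trans (by simp))

end main

end Pool.Agent.R56.Cost
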