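import Mathlib

/-! # Plane trees, boundary walks and tone colourings: definitions -/

namespace HalinTwoTone

variable {V : Type*}

/-- `x` is a leaf of `T`: it has exactly one neighbour. -/
def IsLeaf (T : SimpleGraph V) (x : V) : Prop := ∃! y, T.Adj x y

/-- Let `rot v` give, for every vertex `v`, the cyclic order of its neighbours in a plane drawing
of the tree `T`.  `FirstLeaf T rot x y ℓ` says: if we traverse the edge `xy` from `x` to `y` and
keep walking along the boundary of the face (on arriving at an inner vertex `y` from `x` we leave it
towards the neighbour `rot y x` that follows `x` in the cyclic order at `y`), then the first leaf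
that we meet is `ℓ` (possibly `ℓ = y`). -/
inductive FirstLeaf (T : SimpleGraph V) (rot : V → Equiv.Perm V) : V → V → V → Prop
  | here {x y : V} : IsLeaf T y → FirstLeaf T rot x y y
  | turn {x y ℓ : V} : ¬ IsLeaf T y → FirstLeaf T rot y (rot y x) ℓ → FirstLeaf T rot x y ℓ

/-- `y` is the leaf that follows the leaf `x` on the boundary walk of the plane tree. -/
def Next (T : SimpleGraph V) (rot : V → Equiv.Perm V) (x y : V) : Prop :=
  IsLeaf T x ∧ ∃ p, T.Adj x p ∧ FirstLeaf T rot x p y

/-- A `t`-tone `k`-colouring of `G`: every vertex gets a `t`-element set of colours, and distinct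
vertices `u`, `v` at distance `d` share fewer than `d` colours. -/
def ToneColorable (G : SimpleGraph V) (t k : ℕ) : Prop :=
  ∃ f : V → Finset (Fin k), (∀ v, (f v).card = t) ∧
    ∀ u v, u ≠ v → (((f u ∩ f v).card : ℕ) : ℕ∞) < G.edist u v

end HalinTwoTone
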