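import Pool.Agent.R56.HalinCheck
import Pool.Agent.R56.HalinDefs

/-! # Cubic Halin graphs are 2-tone 6-colourable -/

namespace HalinTwoTone

variable {V : Type*}

section Tree

variable {T : SimpleGraph V}

/-- The vertices on the side of `v` of the edge `uv`. -/
def Side (T : SimpleGraph V) (u v : V) : Set V :=
  {x | Relation.ReflTransGen (T.deleteEdges {s(u, v)}).Adj v x}

theorem self_mem_side (u v : V) : v ∈ Side T u v := Relation.ReflTransGen.refl

theorem side_closed {u v x y : V} (hx : x ∈ Side T u v) (h : T.Adj x y)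
    (hne : s(x, y) ≠ s(u, v)) : y ∈ Side T u v :=
  Relation.ReflTransGen.tail hx (by
    rw [SimpleGraph.deleteEdges_adj]
    exact ⟨h, by simpa using hne⟩)

theorem not_mem_side (hT : T.IsTree) {u v : V} (h : T.Adj u v) : u ∉ Side T u v := by
  intro hu
  have hb := SimpleGraph.isAcyclic_iff_forall_adj_isBridge.1 hT.2 h
  rw [SimpleGraph.isBridge_iff] at hb
  apply hb
  rw [SimpleGraph.reachable_comm, SimpleGraph.reachable_iff_reflTransGen]
  exact hu

theorem side_disj (hT : T.IsTree) {u v x : V} (h : T.Adj u v) (hx : x ∈ Side T u v) :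
    x ∉ Side T v u := by
  intro hx'
  have hb := SimpleGraph.isAcyclic_iff_forall_adj_isBridge.1 hT.2 h
  rw [SimpleGraph.isBridge_iff] at hb
  apply hb
  have h1 : (T.deleteEdges {s(u, v)}).Reachable v x :=
    (SimpleGraph.reachable_iff_reflTransGen _ _).2 hx
  have h2 : (T.deleteEdges {s(u, v)}).Reachable u x := by
    rw [SimpleGraph.reachable_iff_reflTransGen]
    unfold Side at hx'
    rw [Sym2.eq_swap] at hx'
    exact hx'
  exact h2.trans h1.symm

theorem side_compl (hT : T.IsTree) {u v : V} (x : V) : x ∈ Side T u v ∨ x ∈ Side T v u := by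
  have hr := (SimpleGraph.reachable_iff_reflTransGen _ _).1 (hT.1.preconnected v x)
  induction hr with
  | refl => exact Or.inl (self_mem_side u v)
  | @tail y z _ hyz ih =>
    by_cases he : s(y, z) = s(u, v)
    · have hz : z = u ∨ z = v := by
        rcases Sym2.eq_iff.1 he with ⟨_, h⟩ | ⟨_, h⟩
        · exact Or.inr h
        · exact Or.inl h
      rcases hz with rfl | rfl
      · exact Or.inr (self_mem_side _ _)
      · exact Or.inl (self_mem_side _ _)
    · rcases ih with ih | ih
      · exact Or.inl (side_closed ih hyz he)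
      · exact Or.inr (side_closed ih hyz (by rw [Sym2.eq_swap (a := v)]; exact he))

theorem mem_side_iff (hT : T.IsTree) {u v : V} (h : T.Adj u v) (x : V) :
    x ∉ Side T u v ↔ x ∈ Side T v u := by
  constructor
  · intro hx
    exact (side_compl hT x).resolve_left hx
  · intro hx
    exact side_disj hT h.symm hx

theorem side_sub (hT : T.IsTree) {u v w : V} (h : T.Adj u v) (hw : T.Adj v w) (hne : w ≠ u) :
    Side T v w ⊆ Side T u v := by
  intro x hx
  induction hx with
  | refl =>
    refine side_closed (self_mem_side u v) hw ?_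
    intro he
    rcases Sym2.eq_iff.1 he with ⟨h1, _⟩ | ⟨_, h1⟩
    · exact h.ne h1.symm
    · exact hne h1
  | @tail y z hy hyz ih =>
    have hyz' := SimpleGraph.deleteEdges_adj.1 hyz
    refine side_closed ih hyz'.1 ?_
    intro he
    rcases Sym2.eq_iff.1 he with ⟨h1, _⟩ | ⟨h1, _⟩
    · exact not_mem_side hT h (h1 ▸ ih)
    · exact not_mem_side hT hw (h1 ▸ hy)

theorem side_decomp (hT : T.IsTree) {u v x : V} (h : T.Adj u v) (hx : x ∈ Side T u v) :
    x = v ∨ ∃ w, T.Adj v w ∧ w ≠ u ∧ x ∈ Side T v w := by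
  induction hx with
  | refl => exact Or.inl rfl
  | @tail y z hy hyz ih =>
    have hyz' := SimpleGraph.deleteEdges_adj.1 hyz
    rcases ih with rfl | ⟨w, hw, hwu, hyw⟩
    · refine Or.inr ⟨z, hyz'.1, ?_, self_mem_side _ _⟩
      rintro rfl
      exact hyz'.2 (by rw [Sym2.eq_swap]; exact Set.mem_singleton _)
    · by_cases he : s(y, z) = s(v, w)
      · rcases Sym2.eq_iff.1 he with ⟨h1, _⟩ | ⟨_, h1⟩
        · exact absurd (h1 ▸ hyw) (not_mem_side hT hw)
        · exact Or.inl h1
      · exact Or.inr ⟨w, hw, hwu, side_closed hyw hyz'.1 he⟩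

theorem side_side_disj (hT : T.IsTree) {v w w' x : V} (hw : T.Adj v w) (hw' : T.Adj v w')
    (hne : w ≠ w') (hx : x ∈ Side T v w) : x ∉ Side T v w' := by
  have := side_sub hT hw'.symm hw hne hx
  exact side_disj hT hw'.symm this

theorem side_induct [Finite V] (hT : T.IsTree) (P : V → V → Prop)
    (h : ∀ u v, T.Adj u v → (∀ w, T.Adj v w → w ≠ u → P v w) → P u v) :
    ∀ u v, T.Adj u v → P u v := by
  suffices hs : ∀ n : ℕ, ∀ u v, T.Adj u v → (Side T u v).ncard ≤ n → P u v from
    fun u v huv => hs _ u v huv le_rfl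
  intro n
  induction n with
  | zero =>
    intro u v _ hc
    have : (Side T u v) = ∅ := by
      rw [← Set.ncard_eq_zero (Set.toFinite _)]; omega
    exact absurd (self_mem_side (T := T) u v) (by rw [this]; simp)
  | succ n ih =>
    intro u v huv hc
    refine h u v huv fun w hw hwu => ih v w hw ?_
    have hlt : (Side T v w).ncard < (Side T u v).ncard := by
      refine Set.ncard_lt_ncard ?_ (Set.toFinite _)
      refine ⟨side_sub hT huv hw hwu, fun hsub => ?_⟩
      exact not_mem_side hT hw (hsub (self_mem_side u v))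
    omega

end Tree

section Rot

variable {T : SimpleGraph V} {rot : V → Equiv.Perm V}

theorem FirstLeaf.det {x y ℓ ℓ' : V} (h : FirstLeaf T rot x y ℓ) :
    FirstLeaf T rot x y ℓ' → ℓ = ℓ' := by
  induction h with
  | here hy =>
    intro h'
    cases h' with
    | here _ => rfl
    | turn h1 _ => exact absurd hy h1
  | turn hy _ ih =>
    intro h'
    cases h' with
    | here h1 => exact absurd h1 hy
    | turn _ h2 => exact ih h2

theorem FirstLeaf.leaf {x y ℓ : V} (h : FirstLeaf T rot x y ℓ) : IsLeaf T ℓ := by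
  induction h with
  | here hy => exact hy
  | turn _ _ ih => exact ih

theorem FirstLeaf.inv {x y ℓ : V} (hy : ¬ IsLeaf T y) (h : FirstLeaf T rot x y ℓ) :
    FirstLeaf T rot y (rot y x) ℓ := by
  cases h with
  | here h1 => exact absurd h1 hy
  | turn _ h2 => exact h2

theorem Next.det {x y y' : V} (h : Next T rot x y) (h' : Next T rot x y') : y = y' := by
  obtain ⟨hx, p, hp, hpy⟩ := h
  obtain ⟨_, p', hp', hpy'⟩ := h'
  have : p = p' := hx.unique hp hp'
  subst this
  exact hpy.det hpy'

/-- The structure used throughout: a plane tree all of whose inner vertices have degree 3. -/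
structure Cub (T : SimpleGraph V) (rot : V → Equiv.Perm V) : Prop where
  tree : T.IsTree
  cyc : ∀ v, (rot v).IsCycleOn (T.neighborSet v)
  deg : ∀ v, ¬ IsLeaf T v → (T.neighborSet v).ncard = 3

theorem Cub.three [Finite V] (hC : Cub T rot) {v u : V} (hv : ¬ IsLeaf T v) (hu : T.Adj v u) :
    rot v (rot v (rot v u)) = u ∧ T.Adj v (rot v u) ∧ T.Adj v (rot v (rot v u)) ∧
      rot v u ≠ u ∧ rot v (rot v u) ≠ u ∧ rot v u ≠ rot v (rot v u) ∧
      ∀ w, T.Adj v w → w = u ∨ w = rot v u ∨ w = rot v (rot v u) := by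
  classical
  have hfin : (T.neighborSet v).Finite := Set.toFinite _
  have hc := hC.cyc v
  have hd := hC.deg v hv
  have hcard : hfin.toFinset.card = 3 := by rw [← Set.ncard_eq_toFinset_card _ hfin, hd]
  have hc' : (rot v).IsCycleOn (hfin.toFinset : Set V) := by simpa using hc
  have hu' : u ∈ hfin.toFinset := by simpa using hu
  have h3 : (rot v ^ 3) u = u := by
    rw [← hcard]; exact hc'.pow_card_apply hu'
  have h1 : (rot v ^ 1) u ≠ u := by
    intro h
    have := (hc'.pow_apply_eq hu').1 h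
    rw [hcard] at this
    omega
  have h2 : (rot v ^ 2) u ≠ u := by
    intro h
    have := (hc'.pow_apply_eq hu').1 h
    rw [hcard] at this
    omega
  have e1 : (rot v ^ 1) u = rot v u := by simp
  have e2 : (rot v ^ 2) u = rot v (rot v u) := by
    rw [pow_succ, pow_one]; rfl
  have e3 : (rot v ^ 3) u = rot v (rot v (rot v u)) := by
    rw [pow_succ, pow_succ, pow_one]; rfl
  rw [e1] at h1
  rw [e2] at h2
  rw [e3] at h3
  have a1 : T.Adj v (rot v u) := hc.apply_mem_iff.2 hu
  have a2 : T.Adj v (rot v (rot v u)) := hc.apply_mem_iff.2 a1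
  have hne : rot v u ≠ rot v (rot v u) := fun h => h1 ((rot v).injective h).symm
  refine ⟨h3, a1, a2, h1, h2, hne, ?_⟩
  intro w hw
  have hsub : ({u, rot v u, rot v (rot v u)} : Finset V) ⊆ hfin.toFinset := by
    intro z hz
    simp only [Finset.mem_insert, Finset.mem_singleton] at hz
    rcases hz with rfl | rfl | rfl
    · simpa using hu
    · simpa using a1
    · simpa using a2
  have hc3 : ({u, rot v u, rot v (rot v u)} : Finset V).card = 3 := by
    rw [Finset.card_eq_three]
    exact ⟨u, rot v u, rot v (rot v u), h1.symm, h2.symm, hne, rfl⟩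
  have heq := Finset.eq_of_subset_of_card_le hsub (by rw [hc3, hcard])
  have hw' : w ∈ hfin.toFinset := by simpa using hw
  rw [← heq] at hw'
  simpa using hw'

/-- First structural induction. -/
theorem Cub.struct [Finite V] (hC : Cub T rot) : ∀ u v, T.Adj u v →
    (∃ ℓ ∈ Side T u v, FirstLeaf T rot u v ℓ) ∧
    (∀ x ∈ Side T u v, IsLeaf T x → (∃ y ∈ Side T u v, Next T rot x y) ∨
      (∀ ℓ, FirstLeaf T rot v u ℓ → Next T rot x ℓ)) ∧
    (∃ b ∈ Side T u v, IsLeaf T b ∧ ∀ ℓ, FirstLeaf T rot v u ℓ → Next T rot b ℓ) := by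
  apply side_induct hC.tree
  intro u v huv ih
  by_cases hv : IsLeaf T v
  · have hn : ∀ ℓ, FirstLeaf T rot v u ℓ → Next T rot v ℓ := fun ℓ h => ⟨hv, u, huv.symm, h⟩
    refine ⟨⟨v, self_mem_side _ _, FirstLeaf.here hv⟩, ?_, ⟨v, self_mem_side _ _, hv, hn⟩⟩
    intro x hx _
    rcases side_decomp hC.tree huv hx with rfl | ⟨w, hw, hwu, _⟩
    · exact Or.inr hn
    · exact absurd (hv.unique hw huv.symm) hwu
  · obtain ⟨h3, a1, a2, n1, n2, n3, hall⟩ := hC.three hv huv.symm
    obtain ⟨i1, j1, k1⟩ := ih _ a1 n1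
    obtain ⟨i2, j2, k2⟩ := ih _ a2 n2
    have s1 := side_sub hC.tree huv a1 n1
    have s2 := side_sub hC.tree huv a2 n2
    obtain ⟨ℓ1, hℓ1, hf1⟩ := i1
    obtain ⟨ℓ2, hℓ2, hf2⟩ := i2
    obtain ⟨b, hb, hbl, hbn⟩ := k2
    have hexit : ∀ ℓ, FirstLeaf T rot v u ℓ →
        FirstLeaf T rot (rot v (rot v u)) v ℓ := fun ℓ h =>
      FirstLeaf.turn hv (by rw [h3]; exact h)
    refine ⟨⟨ℓ1, s1 hℓ1, FirstLeaf.turn hv hf1⟩, ?_, ⟨b, s2 hb, hbl, fun ℓ h => hbn ℓ (hexit ℓ h)⟩⟩
    intro x hx hxl
    rcases side_decomp hC.tree huv hx with rfl | ⟨w, hw, hwu, hxw⟩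
    · exact absurd hxl hv
    · rcases hall w hw with rfl | rfl | rfl
      · exact absurd rfl hwu
      · rcases j1 x hxw hxl with ⟨y, hy, hxy⟩ | hh
        · exact Or.inl ⟨y, s1 hy, hxy⟩
        · exact Or.inl ⟨ℓ2, s2 hℓ2, hh _ (FirstLeaf.turn hv hf2)⟩
      · rcases j2 x hxw hxl with ⟨y, hy, hxy⟩ | hh
        · exact Or.inl ⟨y, s2 hy, hxy⟩
        · exact Or.inr fun ℓ h => hh ℓ (hexit ℓ h)

theorem Cub.next_exists [Finite V] (hC : Cub T rot) {x : V} (hx : IsLeaf T x) :
    ∃ y, IsLeaf T y ∧ Next T rot x y := by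
  obtain ⟨p, hp, _⟩ := id hx
  obtain ⟨⟨ℓ, _, hℓ⟩, _, _⟩ := hC.struct x p hp
  exact ⟨ℓ, hℓ.leaf, hx, p, hp, hℓ⟩

theorem Cub.prev_exists [Finite V] (hC : Cub T rot) {x : V} (hx : IsLeaf T x) :
    ∃ y, IsLeaf T y ∧ Next T rot y x := by
  obtain ⟨p, hp, _⟩ := id hx
  obtain ⟨_, _, ⟨b, _, hbl, hb⟩⟩ := hC.struct x p hp
  exact ⟨b, hbl, hb _ (FirstLeaf.here hx)⟩

theorem Cub.next_inj [Finite V] (hC : Cub T rot) {x y z : V} (hx : Next T rot x z)
    (hy : Next T rot y z) : x = y := by
  classical
  have hex : ∀ x : {x // IsLeaf T x}, ∃ y : {x // IsLeaf T x}, Next T rot x y := fun x =>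
    let ⟨y, h1, h2⟩ := hC.next_exists x.2
    ⟨⟨y, h1⟩, h2⟩
  choose nx hnx using hex
  have hsurj : Function.Surjective nx := by
    intro z
    obtain ⟨y, hyl, hyz⟩ := hC.prev_exists z.2
    exact ⟨⟨y, hyl⟩, Subtype.ext ((hnx ⟨y, hyl⟩).det hyz)⟩
  have hinj : Function.Injective nx := Finite.injective_iff_surjective.2 hsurj
  have hz : IsLeaf T z := by
    obtain ⟨_, p, _, h⟩ := hx
    exact h.leaf
  have h1 : nx ⟨x, hx.1⟩ = ⟨z, hz⟩ := Subtype.ext ((hnx ⟨x, hx.1⟩).det hx)
  have h2 : nx ⟨y, hy.1⟩ = ⟨z, hz⟩ := Subtype.ext ((hnx ⟨y, hy.1⟩).det hy)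
  have := hinj (h1.trans h2.symm)
  exact congrArg Subtype.val this

end Rot

section Colour

variable {T : SimpleGraph V} {rot : V → Equiv.Perm V} {H : SimpleGraph V}

/-- The colouring condition at a vertex. -/
def Local (H : SimpleGraph V) (f : V → Finset (Fin 6)) (x : V) : Prop :=
  (f x).card = 2 ∧ (∀ y, H.Adj x y → Disjoint (f y) (f x)) ∧
    ∀ y z, H.Adj x y → H.Adj x z → y ≠ z → f y ≠ f z

theorem Local.congr {f g : V → Finset (Fin 6)} {x : V} (h : Local H f x) (hx : g x = f x)
    (hy : ∀ y, H.Adj x y → g y = f y) : Local H g x := by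
  obtain ⟨h1, h2, h3⟩ := h
  refine ⟨by rw [hx]; exact h1, fun y hxy => ?_, fun y z hxy hxz hne => ?_⟩
  · rw [hx, hy y hxy]; exact h2 y hxy
  · rw [hy y hxy, hy z hxz]; exact h3 y z hxy hxz hne

/-- Every boundary state in `R` extends to the piece `S`. -/
def Good (H : SimpleGraph V) (S : Set V) (v u a a' b b' : V) (R : Set SSt) : Prop :=
  ∀ s ∈ R, ∀ h : V → Finset (Fin 6), h u = s.u → h a' = s.a' → h b' = s.b' →
    ∃ f : V → Finset (Fin 6), (∀ x, x ∉ S → f x = h x) ∧ f v = s.v ∧ f a = s.a ∧ f b = s.b ∧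
      ∀ x ∈ S, Local H f x

/-- The vertices outside a side that are adjacent to it. -/
theorem Cub.boundary [Finite V] (hC : Cub T rot)
    (hH : ∀ x y, H.Adj x y ↔ T.Adj x y ∨ Next T rot x y ∨ Next T rot y x)
    {u v a a' b' : V} (huv : T.Adj u v) (ha : FirstLeaf T rot u v a)
    (hb' : FirstLeaf T rot v u b') (ha' : Next T rot a' a) {x y : V} (hx : x ∈ Side T u v)
    (hxy : H.Adj x y) (hy : y ∉ Side T u v) : y = u ∨ y = a' ∨ y = b' := by
  rcases (hH x y).1 hxy with h | h | h
  · left
    by_contra hne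
    apply hy
    refine side_closed hx h ?_
    intro he
    rcases Sym2.eq_iff.1 he with ⟨h1, _⟩ | ⟨_, h1⟩
    · exact not_mem_side hC.tree huv (h1 ▸ hx)
    · exact hne h1
  · rcases (hC.struct u v huv).2.1 x hx h.1 with ⟨y', hy', hn⟩ | hn
    · exact absurd (h.det hn ▸ hy') hy
    · right; right
      exact h.det (hn _ hb')
  · have hy2 := (mem_side_iff hC.tree huv y).1 hy
    rcases (hC.struct v u huv.symm).2.1 y hy2 h.1 with ⟨x', hx', hn⟩ | hn
    · exact absurd (h.det hn ▸ hx') (side_disj hC.tree huv hx)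
    · right; left
      have := hn _ ha
      have hxa : x = a := h.det this
      subst hxa
      exact hC.next_inj h ha'

theorem Cub.good [Finite V] (hC : Cub T rot)
    (hH : ∀ x y, H.Adj x y ↔ T.Adj x y ∨ Next T rot x y ∨ Next T rot y x) :
    ∀ u v, T.Adj u v → ∀ a b' a' b, FirstLeaf T rot u v a → FirstLeaf T rot v u b' →
      Next T rot a' a → Next T rot b b' →
      ∃ k, k < 15 ∧ (¬ IsLeaf T v → 1 ≤ k) ∧ Good H (Side T u v) v u a a' b b' (RR k) := by
  classical
  apply side_induct hC.tree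
  intro u v huv ih a b' a' b ha hb' ha' hb
  by_cases hv : IsLeaf T v
  · have hav : a = v := ha.det (FirstLeaf.here hv)
    have hbv : b = v := hC.next_inj hb ⟨hv, u, huv.symm, hb'⟩
    subst hav
    subst hbv
    refine ⟨0, by norm_num, fun h => absurd hv h, ?_⟩
    intro s hs h hu h1 h2
    obtain ⟨q1, q2, q3, q4, q5, q6, q7, q8, q9⟩ := leaf_spec hs
    have hS : ∀ x ∈ Side T u b, x = b := by
      intro x hx
      rcases side_decomp hC.tree huv hx with rfl | ⟨w, hw, hwu, _⟩
      · rfl
      · exact absurd (hv.unique hw huv.symm) hwu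
    have hnb : ∀ y, H.Adj b y → y = u ∨ y = a' ∨ y = b' := by
      intro y hy
      rcases (hH b y).1 hy with h' | h' | h'
      · exact Or.inl (hv.unique h' huv.symm)
      · exact Or.inr (Or.inr (h'.det hb))
      · exact Or.inr (Or.inl (hC.next_inj h' ha'))
    have hf : ∀ y, H.Adj b y → Function.update h b s.v y = h y := fun y hy =>
      Function.update_of_ne hy.ne' _ _
    refine ⟨Function.update h b s.v, ?_, by simp, by simp [q1], by simp [q2], ?_⟩
    · intro x hx
      apply Function.update_of_ne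
      rintro rfl
      exact hx (self_mem_side _ _)
    · intro x hx
      obtain rfl := hS x hx
      refine ⟨by simp [q3], ?_, ?_⟩
      · intro y hy
        rw [hf y hy, Function.update_self]
        rcases hnb y hy with rfl | rfl | rfl
        · rw [hu]; exact q7
        · rw [h1]; exact q8
        · rw [h2]; exact q9
      · intro y z hy hz hne
        rw [hf y hy, hf z hz]
        rcases hnb y hy with rfl | rfl | rfl <;> rcases hnb z hz with rfl | rfl | rfl
        · exact absurd rfl hne
        · rw [hu, h1]; exact q4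
        · rw [hu, h2]; exact q5
        · rw [hu, h1]; exact q4.symm
        · exact absurd rfl hne
        · rw [h1, h2]; exact q6
        · rw [hu, h2]; exact q5.symm
        · rw [h1, h2]; exact q6.symm
        · exact absurd rfl hne
  · obtain ⟨h3, e1, e2, n1, n2, n3, hall⟩ := hC.three hv huv.symm
    set v1 := rot v u with hv1
    set v2 := rot v v1 with hv2
    obtain ⟨⟨q, hq, hqf⟩, _, ⟨b2, hb2, _, hb2n⟩⟩ := hC.struct v v2 e2
    obtain ⟨⟨a1, ha1, ha1f⟩, _, ⟨b1, hb1, _, hb1n⟩⟩ := hC.struct v v1 e1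
    have haf : FirstLeaf T rot v v1 a := ha.inv hv
    have haa : a1 = a := ha1f.det haf
    subst haa
    have hvq : FirstLeaf T rot v1 v q := FirstLeaf.turn hv hqf
    have hvb : FirstLeaf T rot v2 v b' := FirstLeaf.turn hv (by rw [h3]; exact hb')
    obtain ⟨p, hpl, hp⟩ := hC.prev_exists hqf.leaf
    obtain ⟨k1, hk1, _, g1⟩ := ih v1 e1 n1 a1 q a' p haf hvq ha' hp
    obtain ⟨k2, hk2, _, g2⟩ := ih v2 e2 n2 q b' p b hqf hvb hp hb
    obtain ⟨k, hk, hk', hcomp⟩ := comp_spec k1 k2 hk1 hk2
    refine ⟨k, hk', fun _ => hk, ?_⟩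
    have hpb : p = b1 := hC.next_inj hp (hb1n _ hvq)
    subst hpb
    have hbb : b = b2 := hC.next_inj hb (hb2n _ hvb)
    subst hbb
    have s1 := side_sub hC.tree huv e1 n1
    have s2 := side_sub hC.tree huv e2 n2
    have d12 : ∀ x ∈ Side T v v1, x ∉ Side T v v2 := fun x hx =>
      side_side_disj hC.tree e1 e2 n3 hx
    have ha'S : a' ∉ Side T u v := by
      obtain ⟨_, _, ⟨b3, hb3, _, hb3n⟩⟩ := hC.struct v u huv.symm
      have : a' = b3 := hC.next_inj ha' (hb3n _ ha)
      rw [this]
      exact side_disj hC.tree huv.symm hb3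
    have hb'S : b' ∉ Side T u v := by
      obtain ⟨⟨ℓ, hℓ, hℓf⟩, _, _⟩ := hC.struct v u huv.symm
      have : b' = ℓ := hb'.det hℓf
      rw [this]
      exact side_disj hC.tree huv.symm hℓ
    have huS : u ∉ Side T u v := not_mem_side hC.tree huv
    have hvS : v ∈ Side T u v := self_mem_side _ _
    have hv1S : v ∉ Side T v v1 := not_mem_side hC.tree e1
    have hv2S : v ∉ Side T v v2 := not_mem_side hC.tree e2
    intro s hs h hu h1 h2
    obtain ⟨x, hx, y, hy, hc⟩ := hcomp s hs
    obtain ⟨c1, c2, c3, c4, c5, c6, c7, c8, c9, c10, c11, c12, c13, c14, c15⟩ := hc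
    have hvq' : v ≠ q := fun h => hv2S (h ▸ hq)
    have hvp' : v ≠ p := fun h => hv1S (h ▸ hb1)
    have ha'v : a' ≠ v := fun h => ha'S (h ▸ hvS)
    have ha'q : a' ≠ q := fun h => ha'S (h ▸ s2 hq)
    have hb'v : b' ≠ v := fun h => hb'S (h ▸ hvS)
    have hb'p : b' ≠ p := fun h => hb'S (h ▸ s1 hb1)
    obtain ⟨f1, f1o, f1v, f1a, f1p, f1l⟩ := g1 x hx (Function.update (Function.update h v s.v) q y.a)
      (by rw [Function.update_of_ne hvq', Function.update_self, c1])
      (by rw [Function.update_of_ne ha'q, Function.update_of_ne ha'v, c3]; exact h1)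
      (by rw [Function.update_self, c5])
    obtain ⟨f2, f2o, f2v, f2q, f2b, f2l⟩ := g2 y hy (Function.update (Function.update h v s.v) p x.b)
      (by rw [Function.update_of_ne hvp', Function.update_self, c6])
      (by rw [Function.update_self, c4])
      (by rw [Function.update_of_ne hb'p, Function.update_of_ne hb'v, c8]; exact h2)
    set f : V → Finset (Fin 6) := fun z =>
      if z ∈ Side T v v1 then f1 z else if z ∈ Side T v v2 then f2 z else
        if z = v then s.v else h z with hf
    have fS1 : ∀ z ∈ Side T v v1, f z = f1 z := fun z hz => by simp [hf, hz]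
    have fS2 : ∀ z ∈ Side T v v2, f z = f2 z := fun z hz => by
      have : z ∉ Side T v v1 := fun h' => d12 z h' hz
      simp [hf, hz, this]
    have fv : f v = s.v := by simp [hf, hv1S, hv2S]
    have fo : ∀ z, z ∉ Side T u v → f z = h z := fun z hz => by
      have z1 : z ∉ Side T v v1 := fun h' => hz (s1 h')
      have z2 : z ∉ Side T v v2 := fun h' => hz (s2 h')
      have z3 : z ≠ v := fun h' => hz (h' ▸ hvS)
      simp [hf, z1, z2, z3]
    refine ⟨f, fo, fv, ?_, ?_, ?_⟩
    · rw [fS1 _ ha1, f1a, c2]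
    · rw [fS2 _ hb2, f2b, c7]
    · intro z hz
      rcases side_decomp hC.tree huv hz with rfl | ⟨w, hw, hwu, hzw⟩
      · have hnb : ∀ y, H.Adj z y → y = u ∨ y = v1 ∨ y = v2 := by
          intro y hy
          rcases (hH z y).1 hy with h' | h' | h'
          · exact hall y h'
          · exact absurd h'.1 hv
          · obtain ⟨_, p', _, hp'⟩ := h'
            exact absurd hp'.leaf hv
        have fu : f u = s.u := by rw [fo u huS, hu]
        have fv1 : f v1 = x.v := by rw [fS1 _ (self_mem_side _ _), f1v]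
        have fv2 : f v2 = y.v := by rw [fS2 _ (self_mem_side _ _), f2v]
        refine ⟨by rw [fv]; exact c15, ?_, ?_⟩
        · intro y' hy'
          rw [fv]
          rcases hnb y' hy' with rfl | rfl | rfl
          · rw [fu]; exact c14
          · rw [fv1]; exact c12
          · rw [fv2]; exact c13
        · intro y' z' hy' hz' hne
          rcases hnb y' hy' with rfl | rfl | rfl <;> rcases hnb z' hz' with rfl | rfl | rfl
          · exact absurd rfl hne
          · rw [fu, fv1]; exact c10.symm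
          · rw [fu, fv2]; exact c11.symm
          · rw [fu, fv1]; exact c10
          · exact absurd rfl hne
          · rw [fv1, fv2]; exact c9
          · rw [fu, fv2]; exact c11
          · rw [fv1, fv2]; exact c9.symm
          · exact absurd rfl hne
      · rcases hall w hw with rfl | rfl | rfl
        · exact absurd rfl hwu
        · refine (f1l z hzw).congr (fS1 z hzw) ?_
          intro y' hy'
          by_cases hyS : y' ∈ Side T v v1
          · exact fS1 _ hyS
          · rcases hC.boundary hH e1 haf hvq ha' hzw hy' hyS with rfl | rfl | rfl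
            · rw [fv, f1o _ hyS, Function.update_of_ne hvq', Function.update_self]
            · rw [fo _ ha'S, f1o _ hyS, Function.update_of_ne ha'q, Function.update_of_ne ha'v]
            · rw [fS2 _ hq, f2q, f1o _ hyS, Function.update_self]
        · refine (f2l z hzw).congr (fS2 z hzw) ?_
          intro y' hy'
          by_cases hyS : y' ∈ Side T v v2
          · exact fS2 _ hyS
          · rcases hC.boundary hH e2 hqf hvb hp hzw hy' hyS with rfl | rfl | rfl
            · rw [fv, f2o _ hyS, Function.update_of_ne hvp', Function.update_self]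
            · rw [fS1 _ hb1, f1p, f2o _ hyS, Function.update_self]
            · rw [fo _ hb'S, f2o _ hyS, Function.update_of_ne hb'p, Function.update_of_ne hb'v]

/-- If two inner vertices are adjacent in the tree then there is a colouring. -/
theorem Cub.colour [Finite V] (hC : Cub T rot)
    (hH : ∀ x y, H.Adj x y ↔ T.Adj x y ∨ Next T rot x y ∨ Next T rot y x)
    {u v : V} (huv : T.Adj u v) (hu : ¬ IsLeaf T u) (hv : ¬ IsLeaf T v) :
    ∃ f : V → Finset (Fin 6), ∀ x, Local H f x := by
  classical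
  obtain ⟨⟨a, haS, ha⟩, _, ⟨b0, hb0S, _, hb0⟩⟩ := hC.struct u v huv
  obtain ⟨⟨b', hb'S, hb'⟩, _, ⟨a0, ha0S, _, ha0⟩⟩ := hC.struct v u huv.symm
  have hb := hb0 _ hb'
  have ha' := ha0 _ ha
  obtain ⟨k, hk, hk1, g1⟩ := hC.good hH u v huv a b' a0 b0 ha hb' ha' hb
  obtain ⟨l, hl, hl1, g2⟩ := hC.good hH v u huv.symm b' a b0 a0 hb' ha hb ha'
  obtain ⟨x, hx, y, hy, c1, c2, c3, c4, c5, c6⟩ := close_spec k l (hk1 hv) hk (hl1 hu) hl
  -- distinctness of `v`, `a`, `b0`
  have hva : v ≠ a := fun h => hv (h ▸ ha.leaf)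
  have hvb : v ≠ b0 := fun h => hv (h ▸ hb.1)
  have hab : a ≠ b0 := by
    obtain ⟨h3, e1, e2, n1, n2, n3, hall⟩ := hC.three hv huv.symm
    obtain ⟨⟨a1, ha1, ha1f⟩, _, _⟩ := hC.struct v _ e1
    obtain ⟨_, _, ⟨b2, hb2, _, hb2n⟩⟩ := hC.struct v _ e2
    have hvb : FirstLeaf T rot (rot v (rot v u)) v b' :=
      FirstLeaf.turn hv (by rw [h3]; exact hb')
    have h1 : a1 = a := ha1f.det (ha.inv hv)
    have h2 : b0 = b2 := hC.next_inj hb (hb2n _ hvb)
    rintro rfl
    exact side_side_disj hC.tree e1 e2 n3 (h1 ▸ ha1) (h2 ▸ hb2)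
  obtain ⟨f0, f0o, f0u, f0b, f0a, f0l⟩ := g2 y hy
    (fun z => if z = v then x.v else if z = b0 then x.b else x.a)
    (by simp [c2]) (by simp [hvb.symm, c4]) (by simp [hva.symm, hab, c6])
  obtain ⟨f, fo, fv, fa, fb, fl⟩ := g1 x hx f0 (by rw [f0u, c1]) (by rw [f0a, c5])
    (by rw [f0b, c3])
  refine ⟨f, fun z => ?_⟩
  by_cases hz : z ∈ Side T u v
  · exact fl z hz
  · have hz' := (mem_side_iff hC.tree huv z).1 hz
    refine (f0l z hz').congr (fo z hz) ?_
    intro w hw
    by_cases hwS : w ∈ Side T v u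
    · exact fo w (side_disj hC.tree huv.symm hwS)
    · rcases hC.boundary hH huv.symm hb' ha hb hz' hw hwS with rfl | rfl | rfl
      · rw [fv, f0o _ hwS]; simp
      · rw [fb, f0o _ hwS]; simp [hvb.symm]
      · rw [fa, f0o _ hwS]; simp [hva.symm, hab]

/-- A set containing a vertex and closed under adjacency is everything. -/
theorem closed_univ (hT : T.IsTree) (S : Set V) (x : V) (hx : x ∈ S)
    (hS : ∀ y ∈ S, ∀ z, T.Adj y z → z ∈ S) : S = Set.univ := by
  rw [Set.eq_univ_iff_forall]
  intro z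
  have hr := (SimpleGraph.reachable_iff_reflTransGen _ _).1 (hT.1.preconnected x z)
  induction hr with
  | refl => exact hx
  | tail _ hyz ih => exact hS _ ih _ hyz

theorem Cub.exists_inner_edge [Finite V] (hC : Cub T rot) (hn : 6 ≤ Nat.card V) :
    ∃ u v, T.Adj u v ∧ ¬ IsLeaf T u ∧ ¬ IsLeaf T v := by
  classical
  by_contra hcon
  push Not at hcon
  -- an inner vertex
  have key : ∀ p : V, ¬ IsLeaf T p → False := by
    intro p hp
    have hne : (T.neighborSet p).Nonempty := by
      rw [← Set.ncard_pos (Set.toFinite _), hC.deg p hp]; norm_num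
    obtain ⟨q, hq⟩ := hne
    obtain ⟨_, e1, e2, n1, n2, n3, hall⟩ := hC.three hp hq
    have huniv := closed_univ hC.tree ({p, q, rot p q, rot p (rot p q)} : Set V) p (by simp) (by
      intro y hy z hyz
      simp only [Set.mem_insert_iff, Set.mem_singleton_iff] at hy ⊢
      rcases hy with rfl | rfl | rfl | rfl
      · exact Or.inr (hall z hyz)
      · exact Or.inl ((hcon p _ hq hp).unique hyz (SimpleGraph.Adj.symm hq))
      · exact Or.inl ((hcon p _ e1 hp).unique hyz (SimpleGraph.Adj.symm e1))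
      · exact Or.inl ((hcon p _ e2 hp).unique hyz (SimpleGraph.Adj.symm e2)))
    have hcard : Nat.card V ≤ 4 := by
      rw [← Set.ncard_univ, ← huniv]
      have : ({p, q, rot p q, rot p (rot p q)} : Set V) =
          (({p, q, rot p q, rot p (rot p q)} : Finset V) : Set V) := by simp
      rw [this, Set.ncard_coe_finset]
      exact Finset.card_le_four
    omega
  have hpos : 0 < Nat.card V := by omega
  have : Nonempty V := (Nat.card_pos_iff.1 hpos).1
  obtain ⟨x⟩ := ‹Nonempty V›
  by_cases hx : IsLeaf T x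
  · obtain ⟨p, hp, _⟩ := id hx
    by_cases hpl : IsLeaf T p
    · have huniv := closed_univ hC.tree ({x, p} : Set V) x (by simp) (by
        intro y hy z hyz
        simp only [Set.mem_insert_iff, Set.mem_singleton_iff] at hy ⊢
        rcases hy with rfl | rfl
        · exact Or.inr (hx.unique hyz hp)
        · exact Or.inl (hpl.unique hyz hp.symm))
      have hcard : Nat.card V ≤ 2 := by
        rw [← Set.ncard_univ, ← huniv]
        have := Set.ncard_insert_le x {p}
        rw [Set.ncard_singleton] at this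
        exact this
      omega
    · exact key p hpl
  · exact key x hx

end Colour

section Tone

theorem tone_of_local {H : SimpleGraph V} {f : V → Finset (Fin 6)} (hf : ∀ x, Local H f x) :
    ToneColorable H 2 6 := by
  refine ⟨f, fun v => (hf v).1, ?_⟩
  intro u v huv
  by_contra hlt
  rw [not_lt] at hlt
  have hle2 : (f u ∩ f v).card ≤ 2 := by
    calc (f u ∩ f v).card ≤ (f u).card := Finset.card_le_card Finset.inter_subset_left
      _ = 2 := (hf u).1
  have hne : H.edist u v ≠ ⊤ := ne_top_of_le_ne_top (ENat.natCast_ne_top _) hlt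
  obtain ⟨p, hp⟩ := SimpleGraph.exists_walk_of_edist_ne_top hne
  rw [← hp] at hlt
  have hlen : p.length ≤ (f u ∩ f v).card := by exact_mod_cast hlt
  match p, hlen with
  | .nil, _ => exact huv rfl
  | .cons h .nil, hl =>
    simp only [SimpleGraph.Walk.length_cons, SimpleGraph.Walk.length_nil] at hl
    have := (hf u).2.1 v h
    rw [Finset.disjoint_iff_inter_eq_empty] at this
    rw [Finset.inter_comm, this] at hl
    simp at hl
  | .cons (v := w) h (.cons h' .nil), hl =>
    simp only [SimpleGraph.Walk.length_cons, SimpleGraph.Walk.length_nil] at hl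
    have hne := (hf w).2.2 u v h.symm h' huv
    apply hne
    have hc : (f u ∩ f v).card = 2 := by omega
    have h1 : f u ∩ f v = f u :=
      Finset.eq_of_subset_of_card_le Finset.inter_subset_left (by rw [hc, (hf u).1])
    have h2 : f u ∩ f v = f v :=
      Finset.eq_of_subset_of_card_le Finset.inter_subset_right (by rw [hc, (hf v).1])
    rw [← h1]; exact h2
  | .cons _ (.cons _ (.cons _ q)), hl =>
    simp only [SimpleGraph.Walk.length_cons] at hl
    omega

end Tone

end HalinTwoTone
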