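import Pool.Agent.R56.HalinData

/-! # Semantics of the certificates of `HalinData` -/

set_option maxRecDepth 100000

namespace HalinTwoTone

/-- Field `f` of a packed state. -/
def fld (n f : ℕ) : ℕ := (n >>> (6 * f)) &&& 63

/-- Digit `i` of a packed permutation. -/
def dg (s i : ℕ) : ℕ := (s >>> (3 * i)) &&& 7

/-- Apply a packed permutation to a packed state. -/
def act (s n : ℕ) : ℕ :=
  (((n >>> 0) &&& 1090785345) <<< dg s 0) ||| ((((n >>> 1) &&& 1090785345) <<< dg s 1) |||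
  ((((n >>> 2) &&& 1090785345) <<< dg s 2) ||| ((((n >>> 3) &&& 1090785345) <<< dg s 3) |||
  ((((n >>> 4) &&& 1090785345) <<< dg s 4) ||| (((n >>> 5) &&& 1090785345) <<< dg s 5)))))

/-- Is it a packed permutation? -/
def pc (s : ℕ) : Bool :=
  Nat.beq ((1 <<< dg s 0) ||| ((1 <<< dg s 1) ||| ((1 <<< dg s 2) ||| ((1 <<< dg s 3) |||
    ((1 <<< dg s 4) ||| (1 <<< dg s 5)))))) 63

/-- Check of the composition relations between three packed states. -/
def rel3 (s x y : ℕ) : Bool :=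
  Nat.beq (fld x 1) (fld s 0) && Nat.beq (fld x 2) (fld s 2) && Nat.beq (fld x 3) (fld s 3) &&
  Nat.beq (fld x 4) (fld y 3) && Nat.beq (fld x 5) (fld y 2) &&
  Nat.beq (fld y 1) (fld s 0) && Nat.beq (fld y 4) (fld s 4) && Nat.beq (fld y 5) (fld s 5) &&
  !(Nat.beq (fld x 0) (fld y 0)) && !(Nat.beq (fld x 0) (fld s 1)) &&
  !(Nat.beq (fld y 0) (fld s 1)) &&
  Nat.beq (fld x 0 &&& fld s 0) 0 && Nat.beq (fld y 0 &&& fld s 0) 0 &&
  Nat.beq (fld s 1 &&& fld s 0) 0 && Nat.beq (fld s 0) 3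

/-- Check of one entry of the certificate. -/
def chk (Li Lj : List ℕ) (s w : ℕ) : Bool :=
  match Li[w &&& 63]?, Lj[(w >>> 24) &&& 63]? with
  | some t₁, some t₂ =>
      pc ((w >>> 6) &&& 262143) && pc ((w >>> 30) &&& 262143) &&
      rel3 s (act ((w >>> 6) &&& 262143) t₁) (act ((w >>> 30) &&& 262143) t₂)
  | _, _ => false

/-- Parallel check of two lists. -/
def all2 (p : ℕ → ℕ → Bool) : List ℕ → List ℕ → Bool
  | [], _ => true
  | a :: as, b :: bs => p a b && all2 p as bs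
  | _ :: _, [] => false

/-- The whole check of compositions for a fixed first type. -/
def checkRow (i : ℕ) : Bool :=
  (List.range 15).all fun j =>
    Nat.ble 1 ((asg.getD i []).getD j 0) && Nat.ble ((asg.getD i []).getD j 0) 14 &&
    all2 (chk (states.getD i []) (states.getD j []))
      (states.getD ((asg.getD i []).getD j 0) []) ((cert.getD i []).getD j [])

theorem checkRow_all : (List.range 15).all checkRow = true := by decide +kernel


/-- Check for leaf states. -/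
def chkLeaf (s : ℕ) : Bool :=
  Nat.beq (fld s 2) (fld s 0) && Nat.beq (fld s 4) (fld s 0) && Nat.beq (fld s 0) 3 &&
  !(Nat.beq (fld s 1) (fld s 3)) && !(Nat.beq (fld s 1) (fld s 5)) &&
  !(Nat.beq (fld s 3) (fld s 5)) &&
  Nat.beq (fld s 1 &&& fld s 0) 0 && Nat.beq (fld s 3 &&& fld s 0) 0 &&
  Nat.beq (fld s 5 &&& fld s 0) 0

theorem leaf_all : (states.getD 0 []).all chkLeaf = true := by decide +kernel

/-- Check for the closing of two types. -/
def chkClose (Li Lj : List ℕ) (w : ℕ) : Bool :=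
  match Li[w &&& 63]?, Lj[(w >>> 6) &&& 63]? with
  | some s, some t =>
      pc ((w >>> 12) &&& 262143) &&
      Nat.beq (fld (act ((w >>> 12) &&& 262143) t) 0) (fld s 1) &&
      Nat.beq (fld (act ((w >>> 12) &&& 262143) t) 1) (fld s 0) &&
      Nat.beq (fld (act ((w >>> 12) &&& 262143) t) 2) (fld s 5) &&
      Nat.beq (fld (act ((w >>> 12) &&& 262143) t) 3) (fld s 4) &&
      Nat.beq (fld (act ((w >>> 12) &&& 262143) t) 4) (fld s 3) &&
      Nat.beq (fld (act ((w >>> 12) &&& 262143) t) 5) (fld s 2)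
  | _, _ => false

theorem close_all : ((List.range 14).all fun i => (List.range 14).all fun j =>
    chkClose (states.getD (i + 1) []) (states.getD (j + 1) [])
      ((closing.getD i []).getD j 0)) = true := by decide +kernel

/-- The set of colours encoded by a bit mask. -/
def D (m : ℕ) : Finset (Fin 6) := Finset.univ.filter (fun i => m.testBit i = true)

theorem mem_D {m : ℕ} {i : Fin 6} : i ∈ D m ↔ m.testBit i = true := by simp [D]

theorem D_disj {a b : ℕ} (h : a &&& b = 0) : Disjoint (D a) (D b) := by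
  rw [Finset.disjoint_left]
  intro i ha hb
  rw [mem_D] at ha hb
  have : (a &&& b).testBit i = true := by rw [Nat.testBit_and, ha, hb]; rfl
  rw [h] at this
  simp at this

theorem D_inj {a b : ℕ} (ha : a < 64) (hb : b < 64) (h : D a = D b) : a = b := by
  apply Nat.eq_of_testBit_eq
  intro i
  by_cases hi : i < 6
  · have := Finset.ext_iff.1 h ⟨i, hi⟩
    rw [mem_D, mem_D] at this
    exact Bool.eq_iff_iff.2 this
  · have h64 : 64 ≤ 2 ^ i := by
      calc 64 = 2 ^ 6 := by norm_num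
        _ ≤ 2 ^ i := Nat.pow_le_pow_right (by norm_num) (by omega)
    rw [Nat.testBit_lt_two_pow (lt_of_lt_of_le ha h64),
      Nat.testBit_lt_two_pow (lt_of_lt_of_le hb h64)]

theorem fld_lt (n f : ℕ) : fld n f < 64 := by
  unfold fld
  have : (n >>> (6 * f)) &&& 63 ≤ 63 := Nat.and_le_right
  omega

theorem dg_lt (n f : ℕ) : dg n f < 8 := by
  unfold dg
  have : (n >>> (3 * f)) &&& 7 ≤ 7 := Nat.and_le_right
  omega

theorem testBit_fld (n f i : ℕ) (hi : i < 6) : (fld n f).testBit i = n.testBit (6 * f + i) := by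
  unfold fld
  rw [Nat.testBit_and, Nat.testBit_shiftRight]
  have : (63 : ℕ).testBit i = true := by interval_cases i <;> decide
  rw [this, Bool.and_true]

theorem testBit_M (t : ℕ) (ht : t < 36) :
    (1090785345 : ℕ).testBit t = decide (t % 6 = 0) := by
  interval_cases t <;> decide

theorem testBit_piece (n k p f j : ℕ) (hk : k < 6) (hp : p < 6) (hf : f < 6) (hj : j < 6) :
    (((n >>> k) &&& 1090785345) <<< p).testBit (6 * f + j) =
      (decide (j = p) && n.testBit (6 * f + k)) := by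
  rw [Nat.testBit_shiftLeft, Nat.testBit_and, Nat.testBit_shiftRight]
  by_cases h : j = p
  · subst h
    have h1 : 6 * f + j ≥ j := by omega
    have h2 : 6 * f + j - j = 6 * f := by omega
    rw [h2, testBit_M _ (by omega)]
    have h3 : 6 * f % 6 = 0 := by omega
    simp [h1, h3, Nat.add_comm]
  · by_cases h1 : 6 * f + j ≥ p
    · rw [testBit_M _ (by omega)]
      have h3 : (6 * f + j - p) % 6 ≠ 0 := by omega
      simp [h3, h]
    · simp [h1, h]

theorem testBit_one_shift (p j : ℕ) : (1 <<< p).testBit j = decide (j = p) := by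
  rw [Nat.one_shiftLeft, Nat.testBit_two_pow]
  exact decide_eq_decide.2 eq_comm

theorem pc_lt {s : ℕ} (h : pc s = true) : ∀ i < 6, dg s i < 6 := by
  unfold pc at h
  have h' := Nat.eq_of_beq_eq_true h
  intro i hi
  by_contra hlt
  have h8 := dg_lt s i
  have hb : ∀ j, (63 : ℕ).testBit j = ((1 <<< dg s 0) ||| ((1 <<< dg s 1) ||| ((1 <<< dg s 2) |||
    ((1 <<< dg s 3) ||| ((1 <<< dg s 4) ||| (1 <<< dg s 5)))))).testBit j := by
    intro j; rw [h']
  have := hb (dg s i)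
  simp only [Nat.testBit_or, testBit_one_shift] at this
  have hf : (63 : ℕ).testBit (dg s i) = false := by
    have : dg s i = 6 ∨ dg s i = 7 := by omega
    rcases this with h | h <;> rw [h] <;> decide
  rw [hf] at this
  interval_cases i <;> simp at this

theorem pc_surj {s : ℕ} (h : pc s = true) : ∀ j < 6, ∃ i < 6, dg s i = j := by
  unfold pc at h
  have h' := Nat.eq_of_beq_eq_true h
  intro j hj
  have hb : ∀ j, (63 : ℕ).testBit j = ((1 <<< dg s 0) ||| ((1 <<< dg s 1) ||| ((1 <<< dg s 2) |||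
    ((1 <<< dg s 3) ||| ((1 <<< dg s 4) ||| (1 <<< dg s 5)))))).testBit j := by
    intro j; rw [h']
  have := hb j
  simp only [Nat.testBit_or, testBit_one_shift] at this
  have hf : (63 : ℕ).testBit j = true := by interval_cases j <;> decide
  rw [hf] at this
  simp only [Bool.true_eq, Bool.or_eq_true, decide_eq_true_eq] at this
  rcases this with h | h | h | h | h | h
  · exact ⟨0, by norm_num, h.symm⟩
  · exact ⟨1, by norm_num, h.symm⟩
  · exact ⟨2, by norm_num, h.symm⟩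
  · exact ⟨3, by norm_num, h.symm⟩
  · exact ⟨4, by norm_num, h.symm⟩
  · exact ⟨5, by norm_num, h.symm⟩

theorem act_spec {s : ℕ} (h : pc s = true) :
    ∃ σ : Equiv.Perm (Fin 6), ∀ n f : ℕ, f < 6 →
      D (fld (act s n) f) = (D (fld n f)).map σ.toEmbedding := by
  let p : Fin 6 → Fin 6 := fun i => ⟨dg s i, pc_lt h i i.2⟩
  have hp : Function.Surjective p := by
    intro j
    obtain ⟨i, hi, hij⟩ := pc_surj h j j.2
    exact ⟨⟨i, hi⟩, Fin.ext hij⟩
  have hbij : Function.Bijective p := ⟨Finite.injective_iff_surjective.2 hp, hp⟩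
  refine ⟨Equiv.ofBijective p hbij, ?_⟩
  intro n f hf
  ext j
  rw [mem_D, testBit_fld _ _ _ j.2, Finset.mem_map]
  have key : (act s n).testBit (6 * f + j) = true ↔
      ∃ i : Fin 6, dg s i = j ∧ n.testBit (6 * f + i) = true := by
    unfold act
    simp only [Nat.testBit_or]
    rw [testBit_piece n 0 _ f j (by norm_num) (pc_lt h 0 (by norm_num)) hf j.2,
      testBit_piece n 1 _ f j (by norm_num) (pc_lt h 1 (by norm_num)) hf j.2,
      testBit_piece n 2 _ f j (by norm_num) (pc_lt h 2 (by norm_num)) hf j.2,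
      testBit_piece n 3 _ f j (by norm_num) (pc_lt h 3 (by norm_num)) hf j.2,
      testBit_piece n 4 _ f j (by norm_num) (pc_lt h 4 (by norm_num)) hf j.2,
      testBit_piece n 5 _ f j (by norm_num) (pc_lt h 5 (by norm_num)) hf j.2]
    simp only [Bool.or_eq_true, Bool.and_eq_true, decide_eq_true_eq]
    constructor
    · rintro (h | h | h | h | h | h)
      · exact ⟨0, h.1.symm, h.2⟩
      · exact ⟨1, h.1.symm, h.2⟩
      · exact ⟨2, h.1.symm, h.2⟩
      · exact ⟨3, h.1.symm, h.2⟩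
      · exact ⟨4, h.1.symm, h.2⟩
      · exact ⟨5, h.1.symm, h.2⟩
    · rintro ⟨i, h1, h2⟩
      fin_cases i
      · exact Or.inl ⟨h1.symm, h2⟩
      · exact Or.inr (Or.inl ⟨h1.symm, h2⟩)
      · exact Or.inr (Or.inr (Or.inl ⟨h1.symm, h2⟩))
      · exact Or.inr (Or.inr (Or.inr (Or.inl ⟨h1.symm, h2⟩)))
      · exact Or.inr (Or.inr (Or.inr (Or.inr (Or.inl ⟨h1.symm, h2⟩))))
      · exact Or.inr (Or.inr (Or.inr (Or.inr (Or.inr ⟨h1.symm, h2⟩))))
  rw [key]
  constructor
  · rintro ⟨i, h1, h2⟩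
    refine ⟨i, ?_, ?_⟩
    · rw [mem_D, testBit_fld _ _ _ i.2]; exact h2
    · exact Fin.ext h1
  · rintro ⟨i, h1, h2⟩
    refine ⟨i, ?_, ?_⟩
    · have := congrArg Fin.val h2
      exact this
    · rw [mem_D, testBit_fld _ _ _ i.2] at h1; exact h1

/-- Boundary states: the colours at the two ends of the root edge (`v` inside, `u` outside),
of the first cycle edge (`a` inside, `a'` outside) and of the last cycle edge (`b` inside, `b'`
outside). -/
structure SSt where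
  v : Finset (Fin 6)
  u : Finset (Fin 6)
  a : Finset (Fin 6)
  a' : Finset (Fin 6)
  b : Finset (Fin 6)
  b' : Finset (Fin 6)

/-- Permute the six colours. -/
def SSt.map (σ : Equiv.Perm (Fin 6)) (s : SSt) : SSt :=
  ⟨s.v.map σ.toEmbedding, s.u.map σ.toEmbedding, s.a.map σ.toEmbedding, s.a'.map σ.toEmbedding,
    s.b.map σ.toEmbedding, s.b'.map σ.toEmbedding⟩

/-- The state encoded by a number. -/
def sem (n : ℕ) : SSt :=
  ⟨D (fld n 0), D (fld n 1), D (fld n 2), D (fld n 3), D (fld n 4), D (fld n 5)⟩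

/-- The set of boundary states of type `k`. -/
def RR (k : ℕ) : Set SSt :=
  {x | ∃ s ∈ states.getD k [], ∃ σ : Equiv.Perm (Fin 6), x = (sem s).map σ}

theorem sem_act {s : ℕ} (h : pc s = true) :
    ∃ σ : Equiv.Perm (Fin 6), ∀ n : ℕ, sem (act s n) = (sem n).map σ := by
  obtain ⟨σ, hσ⟩ := act_spec h
  refine ⟨σ, fun n => ?_⟩
  simp only [sem, SSt.map]
  rw [hσ n 0 (by norm_num), hσ n 1 (by norm_num), hσ n 2 (by norm_num), hσ n 3 (by norm_num),
    hσ n 4 (by norm_num), hσ n 5 (by norm_num)]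

theorem SSt.map_map (σ τ : Equiv.Perm (Fin 6)) (s : SSt) :
    (s.map σ).map τ = s.map (τ * σ) := by
  simp only [SSt.map, Finset.map_map]
  rfl

theorem RR_map {k : ℕ} {x : SSt} (hx : x ∈ RR k) (σ : Equiv.Perm (Fin 6)) : x.map σ ∈ RR k := by
  obtain ⟨s, hs, τ, rfl⟩ := hx
  exact ⟨s, hs, σ * τ, SSt.map_map τ σ _⟩

theorem map_disj {s t : Finset (Fin 6)} (σ : Equiv.Perm (Fin 6)) (h : Disjoint s t) :
    Disjoint (s.map σ.toEmbedding) (t.map σ.toEmbedding) :=
  (Finset.disjoint_map _).2 h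

theorem map_ne {s t : Finset (Fin 6)} (σ : Equiv.Perm (Fin 6)) (h : s ≠ t) :
    s.map σ.toEmbedding ≠ t.map σ.toEmbedding := fun h' => h (Finset.map_injective _ h')

theorem D_ne' {m n f g : ℕ} (h : (!Nat.beq (fld m f) (fld n g)) = true) :
    D (fld m f) ≠ D (fld n g) := by
  intro h'
  have := D_inj (fld_lt _ _) (fld_lt _ _) h'
  rw [this] at h
  simp at h

theorem D_eq' {m n : ℕ} (h : Nat.beq m n = true) : D m = D n := by
  rw [Nat.eq_of_beq_eq_true h]

theorem D_dj' {m n : ℕ} (h : Nat.beq (m &&& n) 0 = true) : Disjoint (D m) (D n) :=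
  D_disj (Nat.eq_of_beq_eq_true h)

theorem D_three : (D 3).card = 2 := by decide

/-- Properties of the boundary states of a single leaf. -/
theorem leaf_spec {x : SSt} (hx : x ∈ RR 0) :
    x.a = x.v ∧ x.b = x.v ∧ x.v.card = 2 ∧ x.u ≠ x.a' ∧ x.u ≠ x.b' ∧ x.a' ≠ x.b' ∧
      Disjoint x.u x.v ∧ Disjoint x.a' x.v ∧ Disjoint x.b' x.v := by
  obtain ⟨s, hs, σ, rfl⟩ := hx
  have h := List.all_eq_true.1 leaf_all s hs
  simp only [chkLeaf, Bool.and_eq_true] at h
  obtain ⟨⟨⟨⟨⟨⟨⟨⟨h1, h2⟩, h3⟩, h4⟩, h5⟩, h6⟩, h7⟩, h8⟩, h9⟩ := h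
  refine ⟨?_, ?_, ?_, ?_, ?_, ?_, ?_, ?_, ?_⟩
  · simp only [SSt.map, sem]; rw [D_eq' h1]
  · simp only [SSt.map, sem]; rw [D_eq' h2]
  · simp only [SSt.map, sem, Finset.card_map]; rw [D_eq' h3]; exact D_three
  · exact map_ne σ (D_ne' h4)
  · exact map_ne σ (D_ne' h5)
  · exact map_ne σ (D_ne' h6)
  · exact map_disj σ (D_dj' h7)
  · exact map_disj σ (D_dj' h8)
  · exact map_disj σ (D_dj' h9)

theorem all2_spec {p : ℕ → ℕ → Bool} : ∀ {as bs : List ℕ}, all2 p as bs = true →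
    ∀ a ∈ as, ∃ b, p a b = true
  | [], _, _ => by simp
  | a :: as, [], h => by simp [all2] at h
  | a :: as, b :: bs, h => by
      simp only [all2, Bool.and_eq_true] at h
      intro x hx
      rcases List.mem_cons.1 hx with rfl | hx
      · exact ⟨b, h.1⟩
      · exact all2_spec h.2 x hx

/-- `s` is a state of the piece obtained from a piece with state `x` and a piece with
state `y`. -/
def Comp3 (s x y : SSt) : Prop :=
  x.u = s.v ∧ x.a = s.a ∧ x.a' = s.a' ∧ x.b = y.a' ∧ x.b' = y.a ∧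
  y.u = s.v ∧ y.b = s.b ∧ y.b' = s.b' ∧ x.v ≠ y.v ∧ x.v ≠ s.u ∧ y.v ≠ s.u ∧
  Disjoint x.v s.v ∧ Disjoint y.v s.v ∧ Disjoint s.u s.v ∧ s.v.card = 2

theorem Comp3.map {s x y : SSt} (h : Comp3 s x y) (σ : Equiv.Perm (Fin 6)) :
    Comp3 (s.map σ) (x.map σ) (y.map σ) := by
  obtain ⟨h1, h2, h3, h4, h5, h6, h7, h8, h9, h10, h11, h12, h13, h14, h15⟩ := h
  refine ⟨?_, ?_, ?_, ?_, ?_, ?_, ?_, ?_, map_ne σ h9, map_ne σ h10, map_ne σ h11,
    map_disj σ h12, map_disj σ h13, map_disj σ h14, ?_⟩ <;>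
    simp only [SSt.map, h1, h2, h3, h4, h5, h6, h7, h8, h15, Finset.card_map]

/-- The composition property of the types. -/
theorem comp_spec (i j : ℕ) (hi : i < 15) (hj : j < 15) :
    ∃ k, 1 ≤ k ∧ k < 15 ∧ ∀ s ∈ RR k, ∃ x ∈ RR i, ∃ y ∈ RR j, Comp3 s x y := by
  have h := List.all_eq_true.1 checkRow_all i (List.mem_range.2 hi)
  have h := List.all_eq_true.1 h j (List.mem_range.2 hj)
  simp only [Bool.and_eq_true] at h
  obtain ⟨⟨h1, h2⟩, h3⟩ := h
  refine ⟨(asg.getD i []).getD j 0, Nat.le_of_ble_eq_true h1,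
    Nat.lt_succ_of_le (Nat.le_of_ble_eq_true h2), ?_⟩
  rintro s ⟨s₀, hs₀, σ, rfl⟩
  obtain ⟨w, hw⟩ := all2_spec h3 s₀ hs₀
  unfold chk at hw
  split at hw
  · rename_i t₁ t₂ ht₁ ht₂
    simp only [Bool.and_eq_true] at hw
    obtain ⟨⟨hp1, hp2⟩, hr⟩ := hw
    obtain ⟨σ₁, hσ₁⟩ := sem_act hp1
    obtain ⟨σ₂, hσ₂⟩ := sem_act hp2
    have hc : Comp3 (sem s₀) (sem (act ((w >>> 6) &&& 262143) t₁))
        (sem (act ((w >>> 30) &&& 262143) t₂)) := by
      simp only [rel3, Bool.and_eq_true] at hr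
      obtain ⟨⟨⟨⟨⟨⟨⟨⟨⟨⟨⟨⟨⟨⟨q1, q2⟩, q3⟩, q4⟩, q5⟩, q6⟩, q7⟩, q8⟩, q9⟩, q10⟩, q11⟩, q12⟩,
        q13⟩, q14⟩, q15⟩ := hr
      refine ⟨D_eq' q1, D_eq' q2, D_eq' q3, D_eq' q4, D_eq' q5, D_eq' q6, D_eq' q7, D_eq' q8,
        D_ne' q9, D_ne' q10, D_ne' q11, D_dj' q12, D_dj' q13, D_dj' q14, ?_⟩
      simp only [sem]
      rw [D_eq' q15]
      exact D_three
    rw [hσ₁, hσ₂] at hc
    exact ⟨_, RR_map ⟨t₁, List.mem_of_getElem? ht₁, σ₁, rfl⟩ σ, _,
      RR_map ⟨t₂, List.mem_of_getElem? ht₂, σ₂, rfl⟩ σ, hc.map σ⟩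
  · simp at hw

/-- The closing property of the types. -/
theorem close_spec (i j : ℕ) (hi : 1 ≤ i) (hi' : i < 15) (hj : 1 ≤ j) (hj' : j < 15) :
    ∃ x ∈ RR i, ∃ y ∈ RR j, y.v = x.u ∧ y.u = x.v ∧ y.a = x.b' ∧ y.a' = x.b ∧ y.b = x.a' ∧
      y.b' = x.a := by
  have h := List.all_eq_true.1 close_all (i - 1) (List.mem_range.2 (by omega))
  have h := List.all_eq_true.1 h (j - 1) (List.mem_range.2 (by omega))
  rw [Nat.sub_add_cancel hi, Nat.sub_add_cancel hj] at h
  unfold chkClose at h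
  split at h
  · rename_i s t hs ht
    simp only [Bool.and_eq_true] at h
    obtain ⟨⟨⟨⟨⟨⟨hp, h1⟩, h2⟩, h3⟩, h4⟩, h5⟩, h6⟩ := h
    obtain ⟨σ, hσ⟩ := sem_act hp
    refine ⟨(sem s).map 1, ⟨s, List.mem_of_getElem? hs, 1, rfl⟩, (sem t).map σ,
      ⟨t, List.mem_of_getElem? ht, σ, rfl⟩, ?_⟩
    rw [← hσ]
    have h1s : (sem s).map 1 = sem s := by
      simp only [SSt.map, sem]
      simp [show (1 : Equiv.Perm (Fin 6)).toEmbedding = Function.Embedding.refl _ from rfl,
        Finset.map_refl]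
    rw [h1s]
    exact ⟨D_eq' h1, D_eq' h2, D_eq' h3, D_eq' h4, D_eq' h5, D_eq' h6⟩
  · simp at h

end HalinTwoTone
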