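import Mathlib

/-! # Generic lemmas: unions of two matchings, cores, maximal independent sets -/

namespace R56Pack

variable {V : Type*}

/-- Two fixed-point-free involutions on a finite set have a common proper 2-colouring. -/
theorem two_matchings [DecidableEq V] : ∀ (n : ℕ) (W : Finset V), W.card ≤ n → ∀ F O : V → V,
    (∀ v ∈ W, F v ∈ W ∧ F (F v) = v ∧ F v ≠ v) →
    (∀ v ∈ W, O v ∈ W ∧ O (O v) = v ∧ O v ≠ v) →
    ∃ c : V → Bool, ∀ v ∈ W, c (F v) ≠ c v ∧ c (O v) ≠ c v := by
  intro n
  induction n with
  | zero =>
    intro W hW F O _ _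
    have : W = ∅ := by rw [← Finset.card_eq_zero]; omega
    subst this
    exact ⟨fun _ => true, by simp⟩
  | succ n ih =>
    intro W hW F O hF hO
    rcases W.eq_empty_or_nonempty with rfl | ⟨x, hx⟩
    · exact ⟨fun _ => true, by simp⟩
    obtain ⟨hyW, hyy, hyx⟩ := hF x hx
    obtain ⟨haW, haa, hax⟩ := hO x hx
    obtain ⟨hbW, hbb, hby⟩ := hO (F x) hyW
    set y := F x with hy
    set a := O x with ha
    set b := O y with hb
    set W' := (W.erase x).erase y with hW'
    have hcard : W'.card ≤ n := by
      have h1 : (W.erase x).card = W.card - 1 := Finset.card_erase_of_mem hx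
      have h2 : W'.card = (W.erase x).card - 1 :=
        Finset.card_erase_of_mem (Finset.mem_erase.2 ⟨hyx, hyW⟩)
      have h3 : 0 < W.card := Finset.card_pos.2 ⟨x, hx⟩
      omega
    have hmem : ∀ v, v ∈ W' ↔ v ≠ y ∧ v ≠ x ∧ v ∈ W := by
      intro v; simp [hW', Finset.mem_erase]
    have hFW' : ∀ v ∈ W', F v ∈ W' ∧ F (F v) = v ∧ F v ≠ v := by
      intro v hv
      obtain ⟨h1, h2, h3⟩ := (hmem v).1 hv
      obtain ⟨g1, g2, g3⟩ := hF v h3
      refine ⟨(hmem _).2 ⟨?_, ?_, g1⟩, g2, g3⟩
      · intro h; apply h2; rw [← g2, h]; exact hyy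
      · intro h; apply h1; rw [← g2, h]
    by_cases hay : a = y
    · have hbx : b = x := by rw [hb, ← hay]; exact haa
      have hOW' : ∀ v ∈ W', O v ∈ W' ∧ O (O v) = v ∧ O v ≠ v := by
        intro v hv
        obtain ⟨h1, h2, h3⟩ := (hmem v).1 hv
        obtain ⟨g1, g2, g3⟩ := hO v h3
        refine ⟨(hmem _).2 ⟨?_, ?_, g1⟩, g2, g3⟩
        · intro h; apply h2; rw [← g2, h]; exact hbx
        · intro h; apply h1; rw [← g2, h]; exact hay
      obtain ⟨c', hc'⟩ := ih W' hcard F O hFW' hOW'
      refine ⟨Function.update (Function.update c' x true) y false, ?_⟩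
      have hcv : ∀ v ∈ W', Function.update (Function.update c' x true) y false v = c' v := by
        intro v hv
        obtain ⟨h1, h2, _⟩ := (hmem v).1 hv
        rw [Function.update_of_ne h1, Function.update_of_ne h2]
      intro v hv
      by_cases hvx : v = x
      · subst hvx
        rw [← hy, ← ha, hay]
        rw [Function.update_self, Function.update_of_ne hyx.symm, Function.update_self]
        simp
      · by_cases hvy : v = y
        · rw [hvy, hyy, ← hb, hbx]
          rw [Function.update_self, Function.update_of_ne hyx.symm, Function.update_self]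
          simp
        · have hvW : v ∈ W' := (hmem v).2 ⟨hvy, hvx, hv⟩
          rw [hcv v hvW, hcv _ (hFW' v hvW).1, hcv _ (hOW' v hvW).1]
          exact hc' v hvW
    · have hbx : b ≠ x := by
        intro h; apply hay; rw [ha, ← h]; exact hbb
      have hab : a ≠ b := by
        intro h; apply hyx; rw [← hbb, ← h]; exact haa
      set O' : V → V := fun v => if v = a then b else if v = b then a else O v with hO'
      have haW' : a ∈ W' := (hmem a).2 ⟨hay, hax, haW⟩
      have hbW' : b ∈ W' := (hmem b).2 ⟨hby, hbx, hbW⟩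
      have hOa : O' a = b := by simp [hO']
      have hOb : O' b = a := by simp [hO', hab.symm]
      have hOW' : ∀ v ∈ W', O' v ∈ W' ∧ O' (O' v) = v ∧ O' v ≠ v := by
        intro v hv
        by_cases hva : v = a
        · subst hva; rw [hOa, hOb]; exact ⟨hbW', rfl, hab.symm⟩
        by_cases hvb : v = b
        · rw [hvb, hOb, hOa]; exact ⟨haW', rfl, hab⟩
        obtain ⟨h1, h2, h3⟩ := (hmem v).1 hv
        obtain ⟨g1, g2, g3⟩ := hO v h3
        have e : O' v = O v := by simp [hO', hva, hvb]
        have e1 : O v ≠ a := by intro h; apply h2; rw [← g2, h]; exact haa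
        have e2 : O v ≠ b := by intro h; apply h1; rw [← g2, h]; exact hbb
        have e' : O' (O v) = O (O v) := by simp [hO', e1, e2]
        rw [e, e']
        refine ⟨(hmem _).2 ⟨?_, ?_, g1⟩, g2, g3⟩
        · intro h; apply hvb; rw [← g2, h]
        · intro h; apply hva; rw [← g2, h]
      obtain ⟨c', hc'⟩ := ih W' hcard F O' hFW' hOW'
      have hcab : c' b ≠ c' a := by
        have := (hc' a haW').2
        rwa [hOa] at this
      refine ⟨Function.update (Function.update c' x (!c' a)) y (!c' b), ?_⟩
      set c := Function.update (Function.update c' x (!c' a)) y (!c' b) with hc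
      have hcv : ∀ v ∈ W', c v = c' v := by
        intro v hv
        obtain ⟨h1, h2, _⟩ := (hmem v).1 hv
        rw [hc, Function.update_of_ne h1, Function.update_of_ne h2]
      have hcx : c x = !c' a := by
        rw [hc, Function.update_of_ne hyx.symm, Function.update_self]
      have hcy : c y = !c' b := by rw [hc, Function.update_self]
      intro v hv
      by_cases hvx : v = x
      · rw [hvx, ← hy, ← ha, hcx, hcy, hcv a haW']
        constructor
        · intro h
          apply hcab
          simpa using h
        · intro h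
          cases hh : c' a <;> simp [hh] at h
      · by_cases hvy : v = y
        · rw [hvy, hyy, ← hb, hcx, hcy, hcv b hbW']
          constructor
          · intro h
            apply hcab
            simpa using h.symm
          · intro h
            cases hh : c' b <;> simp [hh] at h
        · have hvW : v ∈ W' := (hmem v).2 ⟨hvy, hvx, hv⟩
          rw [hcv v hvW, hcv _ (hFW' v hvW).1]
          refine ⟨(hc' v hvW).1, ?_⟩
          by_cases hva : v = a
          · rw [hva, haa, hcx]
            intro h
            cases hh : c' a <;> simp [hh] at h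
          by_cases hvb : v = b
          · rw [hvb, hbb, hcy]
            intro h
            cases hh : c' b <;> simp [hh] at h
          have e : O' v = O v := by simp [hO', hva, hvb]
          have := hc' v hvW
          rw [e] at this
          have hOv := (hOW' v hvW).1
          rw [e] at hOv
          rw [hcv _ hOv]
          exact this.2

/-- A proper 2-colouring on a finite set exists as soon as it exists on every subset in which every
vertex has at least two neighbours. -/
theorem core_colour [DecidableEq V] (G : SimpleGraph V) : ∀ (n : ℕ) (R : Finset V), R.card ≤ n →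
    (∀ W ⊆ R, (∀ v ∈ W, ∃ x ∈ W, ∃ y ∈ W, x ≠ y ∧ G.Adj v x ∧ G.Adj v y) →
      ∃ c : V → Bool, ∀ v ∈ W, ∀ w ∈ W, G.Adj v w → c v ≠ c w) →
    ∃ c : V → Bool, ∀ v ∈ R, ∀ w ∈ R, G.Adj v w → c v ≠ c w := by
  intro n
  induction n with
  | zero =>
    intro R hR _
    have : R = ∅ := by rw [← Finset.card_eq_zero]; omega
    subst this
    exact ⟨fun _ => true, by simp⟩
  | succ n ih =>
    intro R hR h
    by_cases hall : ∀ v ∈ R, ∃ x ∈ R, ∃ y ∈ R, x ≠ y ∧ G.Adj v x ∧ G.Adj v y
    · exact h R (Finset.Subset.refl _) hall
    · push Not at hall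
      obtain ⟨v, hv, hv1⟩ := hall
      have hcard : (R.erase v).card ≤ n := by
        rw [Finset.card_erase_of_mem hv]; omega
      obtain ⟨c, hc⟩ := ih (R.erase v) hcard (fun W hW => h W (hW.trans (Finset.erase_subset _ _)))
      by_cases hx : ∃ x ∈ R, G.Adj v x
      · obtain ⟨x, hxR, hvx⟩ := hx
        refine ⟨Function.update c v (!c x), ?_⟩
        have hun : ∀ y ∈ R, G.Adj v y → y = x := by
          intro y hy hvy
          by_contra hne
          exact hv1 x hxR y hy (fun h => hne h.symm) hvx hvy
        have hxv : x ≠ v := hvx.ne'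
        intro p hp q hq hpq
        by_cases hpv : p = v
        · subst hpv
          have := hun q hq hpq
          subst this
          rw [Function.update_self, Function.update_of_ne hxv]
          simp
        · by_cases hqv : q = v
          · subst hqv
            have := hun p hp hpq.symm
            subst this
            rw [Function.update_self, Function.update_of_ne hxv]
            simp
          · rw [Function.update_of_ne hpv, Function.update_of_ne hqv]
            exact hc p (Finset.mem_erase.2 ⟨hpv, hp⟩) q (Finset.mem_erase.2 ⟨hqv, hq⟩) hpq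
      · push Not at hx
        refine ⟨c, ?_⟩
        intro p hp q hq hpq
        by_cases hpv : p = v
        · subst hpv; exact absurd hpq (hx q hq)
        · by_cases hqv : q = v
          · subst hqv; exact absurd hpq.symm (hx p hp)
          · exact hc p (Finset.mem_erase.2 ⟨hpv, hp⟩) q (Finset.mem_erase.2 ⟨hqv, hq⟩) hpq

/-- Extension of an independent set to a maximal one inside `A ∪ P`. -/
theorem exists_maximal_indep {U : Type*} [Finite U] (r : U → U → Prop) (hs : ∀ x y, r x y → r y x)
    (hi : ∀ x, ¬ r x x) (P : Set U) (A : Set U) (hA : ∀ x ∈ A, ∀ y ∈ A, ¬ r x y) :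
    ∃ B : Set U, A ⊆ B ∧ B ⊆ A ∪ P ∧ (∀ x ∈ B, ∀ y ∈ B, ¬ r x y) ∧
      ∀ x ∈ P, x ∉ B → ∃ y ∈ B, r x y := by
  obtain ⟨B, hB⟩ := Set.Finite.exists_maximal
    (Set.toFinite {B : Set U | A ⊆ B ∧ B ⊆ A ∪ P ∧ ∀ x ∈ B, ∀ y ∈ B, ¬ r x y})
    ⟨A, subset_rfl, Set.subset_union_left, hA⟩
  obtain ⟨⟨hB1, hB2, hB3⟩, hmax⟩ := hB
  refine ⟨B, hB1, hB2, hB3, fun x hx hxB => ?_⟩
  by_contra hcon
  push Not at hcon
  have hmem : insert x B ∈ {B : Set U | A ⊆ B ∧ B ⊆ A ∪ P ∧ ∀ x ∈ B, ∀ y ∈ B, ¬ r x y} := by
    refine ⟨hB1.trans (Set.subset_insert _ _), ?_, ?_⟩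
    · intro y hy
      rcases hy with rfl | hy
      · exact Or.inr hx
      · exact hB2 hy
    · intro y hy z hz
      rcases hy with rfl | hy <;> rcases hz with rfl | hz
      · exact hi _
      · exact hcon z hz
      · exact fun h => hcon y hy (hs _ _ h)
      · exact hB3 y hy z hz
  have := hmax hmem (Set.subset_insert _ _)
  exact hxB (this (Set.mem_insert _ _))

end R56Pack
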